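import Pool.Agent.V8H69.TD.B3Def

/-!
# The search through the involutions, part 0
-/

set_option autoImplicit false
set_option maxRecDepth 100000

namespace Pool.Agent.V8H69.TD

theorem t2_0 : step3 2 (dfs3 2 9) (c0 2) (u0 2) 3 0 = true := by decide +kernel
theorem t2_1 : step3 2 (dfs3 2 9) (c0 2) (u0 2) 3 1 = true := by decide +kernel
theorem t2_2 : step3 2 (dfs3 2 9) (c0 2) (u0 2) 3 2 = true := by decide +kernel
theorem t2_3_0 : step3 2 (sub3 2 8 0) (c0 2) (u0 2) 3 3 = true := by decide +kernel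
theorem t2_3_1 : step3 2 (sub3 2 8 1) (c0 2) (u0 2) 3 3 = true := by decide +kernel
theorem t2_3_2 : step3 2 (sub3 2 8 2) (c0 2) (u0 2) 3 3 = true := by decide +kernel
theorem t2_3_3 : step3 2 (sub3 2 8 3) (c0 2) (u0 2) 3 3 = true := by decide +kernel
theorem t2_3_4 : step3 2 (sub3 2 8 4) (c0 2) (u0 2) 3 3 = true := by decide +kernel
theorem t2_3_5 : step3 2 (sub3 2 8 5) (c0 2) (u0 2) 3 3 = true := by decide +kernel
theorem t2_3_6 : step3 2 (sub3 2 8 6) (c0 2) (u0 2) 3 3 = true := by decide +kernel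
theorem t2_3_7 : step3 2 (sub3 2 8 7) (c0 2) (u0 2) 3 3 = true := by decide +kernel
theorem t2_3_8 : step3 2 (sub3 2 8 8) (c0 2) (u0 2) 3 3 = true := by decide +kernel
theorem t2_3_9 : step3 2 (sub3 2 8 9) (c0 2) (u0 2) 3 3 = true := by decide +kernel
theorem t2_3_10 : step3 2 (sub3 2 8 10) (c0 2) (u0 2) 3 3 = true := by decide +kernel
theorem t2_3_11 : step3 2 (sub3 2 8 11) (c0 2) (u0 2) 3 3 = true := by decide +kernel
theorem t2_3_12 : step3 2 (sub3 2 8 12) (c0 2) (u0 2) 3 3 = true := by decide +kernel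

theorem t2_3 : step3 2 (dfs3 2 9) (c0 2) (u0 2) 3 3 = true := by
  apply step3_mono
  intro w hw
  interval_cases w
  · exact t2_3_0
  · exact t2_3_1
  · exact t2_3_2
  · exact t2_3_3
  · exact t2_3_4
  · exact t2_3_5
  · exact t2_3_6
  · exact t2_3_7
  · exact t2_3_8
  · exact t2_3_9
  · exact t2_3_10
  · exact t2_3_11
  · exact t2_3_12

end Pool.Agent.V8H69.TD
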