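import Pool.Agent.V8H69.TD.B3Def

/-!
# The search through the involutions, part 1
-/

set_option autoImplicit false
set_option maxRecDepth 100000

namespace Pool.Agent.V8H69.TD

theorem t2_4 : step3 2 (dfs3 2 9) (c0 2) (u0 2) 3 4 = true := by decide +kernel
theorem t2_5 : step3 2 (dfs3 2 9) (c0 2) (u0 2) 3 5 = true := by decide +kernel
theorem t2_6 : step3 2 (dfs3 2 9) (c0 2) (u0 2) 3 6 = true := by decide +kernel
theorem t2_7 : step3 2 (dfs3 2 9) (c0 2) (u0 2) 3 7 = true := by decide +kernel
theorem t2_8 : step3 2 (dfs3 2 9) (c0 2) (u0 2) 3 8 = true := by decide +kernel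

end Pool.Agent.V8H69.TD
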