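import Pool.Agent.V8H69.TD.B3Def

/-!
# The search through the involutions, part 2
-/

set_option autoImplicit false
set_option maxRecDepth 100000

namespace Pool.Agent.V8H69.TD

theorem t2_9 : step3 2 (dfs3 2 9) (c0 2) (u0 2) 3 9 = true := by decide +kernel
theorem t2_10 : step3 2 (dfs3 2 9) (c0 2) (u0 2) 3 10 = true := by decide +kernel
theorem t2_11 : step3 2 (dfs3 2 9) (c0 2) (u0 2) 3 11 = true := by decide +kernel
theorem t2_12 : step3 2 (dfs3 2 9) (c0 2) (u0 2) 3 12 = true := by decide +kernel

end Pool.Agent.V8H69.TD
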