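import Pool.Agent.V8H69.TD.B3Def

/-!
# The search through the involutions, part 3
-/

set_option autoImplicit false
set_option maxRecDepth 100000

namespace Pool.Agent.V8H69.TD

theorem t3_0 : step3 3 (dfs3 3 10) (c0 3) (u0 3) 2 0 = true := by decide +kernel
theorem t3_1 : step3 3 (dfs3 3 10) (c0 3) (u0 3) 2 1 = true := by decide +kernel
theorem t3_2 : step3 3 (dfs3 3 10) (c0 3) (u0 3) 2 2 = true := by decide +kernel
theorem t3_3 : step3 3 (dfs3 3 10) (c0 3) (u0 3) 2 3 = true := by decide +kernel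
theorem t3_4 : step3 3 (dfs3 3 10) (c0 3) (u0 3) 2 4 = true := by decide +kernel
theorem t3_5 : step3 3 (dfs3 3 10) (c0 3) (u0 3) 2 5 = true := by decide +kernel

end Pool.Agent.V8H69.TD
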