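import Pool.Agent.V8H69.TD.B3Def

/-!
# The search through the involutions, part 5
-/

set_option autoImplicit false
set_option maxRecDepth 100000

namespace Pool.Agent.V8H69.TD

theorem t4_0 : step3 4 (dfs3 4 10) (c0 4) (u0 4) 2 0 = true := by decide +kernel
theorem t4_1 : step3 4 (dfs3 4 10) (c0 4) (u0 4) 2 1 = true := by decide +kernel
theorem t4_2 : step3 4 (dfs3 4 10) (c0 4) (u0 4) 2 2 = true := by decide +kernel
theorem t4_3 : step3 4 (dfs3 4 10) (c0 4) (u0 4) 2 3 = true := by decide +kernel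
theorem t4_4 : step3 4 (dfs3 4 10) (c0 4) (u0 4) 2 4 = true := by decide +kernel
theorem t4_5 : step3 4 (dfs3 4 10) (c0 4) (u0 4) 2 5 = true := by decide +kernel
theorem t4_6 : step3 4 (dfs3 4 10) (c0 4) (u0 4) 2 6 = true := by decide +kernel
theorem t4_7 : step3 4 (dfs3 4 10) (c0 4) (u0 4) 2 7 = true := by decide +kernel
theorem t4_8 : step3 4 (dfs3 4 10) (c0 4) (u0 4) 2 8 = true := by decide +kernel
theorem t4_9 : step3 4 (dfs3 4 10) (c0 4) (u0 4) 2 9 = true := by decide +kernel
theorem t4_10 : step3 4 (dfs3 4 10) (c0 4) (u0 4) 2 10 = true := by decide +kernel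
theorem t4_11 : step3 4 (dfs3 4 10) (c0 4) (u0 4) 2 11 = true := by decide +kernel
theorem t4_12 : step3 4 (dfs3 4 10) (c0 4) (u0 4) 2 12 = true := by decide +kernel

end Pool.Agent.V8H69.TD
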