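import Pool.Agent.V8H69.TD.B3Def

/-!
# The search through the involutions, part 6
-/

set_option autoImplicit false
set_option maxRecDepth 100000

namespace Pool.Agent.V8H69.TD

theorem t5_0 : step3 5 (dfs3 5 10) (c0 5) (u0 5) 2 0 = true := by decide +kernel
theorem t5_1 : step3 5 (dfs3 5 10) (c0 5) (u0 5) 2 1 = true := by decide +kernel
theorem t5_2 : step3 5 (dfs3 5 10) (c0 5) (u0 5) 2 2 = true := by decide +kernel
theorem t5_3 : step3 5 (dfs3 5 10) (c0 5) (u0 5) 2 3 = true := by decide +kernel
theorem t5_4 : step3 5 (dfs3 5 10) (c0 5) (u0 5) 2 4 = true := by decide +kernel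
theorem t5_5 : step3 5 (dfs3 5 10) (c0 5) (u0 5) 2 5 = true := by decide +kernel
theorem t5_6 : step3 5 (dfs3 5 10) (c0 5) (u0 5) 2 6 = true := by decide +kernel
theorem t5_7 : step3 5 (dfs3 5 10) (c0 5) (u0 5) 2 7 = true := by decide +kernel
theorem t5_8 : step3 5 (dfs3 5 10) (c0 5) (u0 5) 2 8 = true := by decide +kernel
theorem t5_9 : step3 5 (dfs3 5 10) (c0 5) (u0 5) 2 9 = true := by decide +kernel
theorem t5_10 : step3 5 (dfs3 5 10) (c0 5) (u0 5) 2 10 = true := by decide +kernel
theorem t5_11 : step3 5 (dfs3 5 10) (c0 5) (u0 5) 2 11 = true := by decide +kernel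
theorem t5_12 : step3 5 (dfs3 5 10) (c0 5) (u0 5) 2 12 = true := by decide +kernel
theorem all3_6 : all3 6 = true := by decide +kernel
theorem all3_7 : all3 7 = true := by decide +kernel
theorem all3_8 : all3 8 = true := by decide +kernel
theorem all3_9 : all3 9 = true := by decide +kernel
theorem all3_10 : all3 10 = true := by decide +kernel
theorem all3_11 : all3 11 = true := by decide +kernel
theorem all3_12 : all3 12 = true := by decide +kernel

end Pool.Agent.V8H69.TD
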