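import Pool.Agent.V8H69.TD.B3Lem
import Pool.Agent.V8H69.TD.B3_0
import Pool.Agent.V8H69.TD.B3_1
import Pool.Agent.V8H69.TD.B3_2
import Pool.Agent.V8H69.TD.B3_3
import Pool.Agent.V8H69.TD.B3_4
import Pool.Agent.V8H69.TD.B3_5
import Pool.Agent.V8H69.TD.B3_6

/-!
# Proof of (B3)
-/

set_option autoImplicit false
set_option maxRecDepth 100000

namespace Pool.Agent.V8H69.TD

open Equiv

theorem all3_2 : all3 2 = true := by
  have h1 : dfs3 2 10 (c0 2) (u0 2) = true := by
    apply sub3_all
    intro v hv
    have h2 : Nat.beq (Nat.land (Nat.shiftRight (u0 2) (Nat.sub 12 9)) 1) 1 = false := by decide +kernel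
    unfold sub3
    rw [h2, cond_false]
    show step3 2 (dfs3 2 9) (c0 2) (u0 2) 3 v = true
    interval_cases v
    · exact t2_0
    · exact t2_1
    · exact t2_2
    · exact t2_3
    · exact t2_4
    · exact t2_5
    · exact t2_6
    · exact t2_7
    · exact t2_8
    · exact t2_9
    · exact t2_10
    · exact t2_11
    · exact t2_12
  apply sub3_all
  intro v hv
  have h2 : Nat.beq (Nat.land (Nat.shiftRight (u0 2) (Nat.sub 12 10)) 1) 1 = true := by decide +kernel
  unfold sub3
  rw [h2, cond_true]
  exact h1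

theorem all3_3 : all3 3 = true := by
  apply sub3_all
  intro v hv
  have h2 : Nat.beq (Nat.land (Nat.shiftRight (u0 3) (Nat.sub 12 10)) 1) 1 = false := by decide +kernel
  unfold sub3
  rw [h2, cond_false]
  show step3 3 (dfs3 3 10) (c0 3) (u0 3) 2 v = true
  interval_cases v
  · exact t3_0
  · exact t3_1
  · exact t3_2
  · exact t3_3
  · exact t3_4
  · exact t3_5
  · exact t3_6
  · exact t3_7
  · exact t3_8
  · exact t3_9
  · exact t3_10
  · exact t3_11
  · exact t3_12

theorem all3_4 : all3 4 = true := by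
  apply sub3_all
  intro v hv
  have h2 : Nat.beq (Nat.land (Nat.shiftRight (u0 4) (Nat.sub 12 10)) 1) 1 = false := by decide +kernel
  unfold sub3
  rw [h2, cond_false]
  show step3 4 (dfs3 4 10) (c0 4) (u0 4) 2 v = true
  interval_cases v
  · exact t4_0
  · exact t4_1
  · exact t4_2
  · exact t4_3
  · exact t4_4
  · exact t4_5
  · exact t4_6
  · exact t4_7
  · exact t4_8
  · exact t4_9
  · exact t4_10
  · exact t4_11
  · exact t4_12

theorem all3_5 : all3 5 = true := by
  apply sub3_all
  intro v hv
  have h2 : Nat.beq (Nat.land (Nat.shiftRight (u0 5) (Nat.sub 12 10)) 1) 1 = false := by decide +kernel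
  unfold sub3
  rw [h2, cond_false]
  show step3 5 (dfs3 5 10) (c0 5) (u0 5) 2 v = true
  interval_cases v
  · exact t5_0
  · exact t5_1
  · exact t5_2
  · exact t5_3
  · exact t5_4
  · exact t5_5
  · exact t5_6
  · exact t5_7
  · exact t5_8
  · exact t5_9
  · exact t5_10
  · exact t5_11
  · exact t5_12

theorem all3_all (r : ℕ) (h2 : 2 ≤ r) (h12 : r ≤ 12) : all3 r = true := by
  interval_cases r
  · exact all3_2
  · exact all3_3
  · exact all3_4
  · exact all3_5
  · exact all3_6
  · exact all3_7
  · exact all3_8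
  · exact all3_9
  · exact all3_10
  · exact all3_11
  · exact all3_12

/-- multiplication by `k + 1` -/
def mu (k : Fin 12) : Perm (Fin 14) where
  toFun z := if z.val = 13 then 13 else ⟨(k.val + 1) * z.val % 13, by omega⟩
  invFun z := if z.val = 13 then 13 else ⟨iv (k.val + 1) * z.val % 13, by omega⟩
  left_inv := by
    have : ∀ k : Fin 12, ∀ z : Fin 14, (fun z : Fin 14 => if z.val = 13 then (13 : Fin 14) else
        ⟨iv (k.val + 1) * z.val % 13, by omega⟩) ((fun z : Fin 14 => if z.val = 13 then (13 : Fin 14) else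
        ⟨(k.val + 1) * z.val % 13, by omega⟩) z) = z := by decide +kernel
    exact this k
  right_inv := by
    have : ∀ k : Fin 12, ∀ z : Fin 14, (fun z : Fin 14 => if z.val = 13 then (13 : Fin 14) else
        ⟨(k.val + 1) * z.val % 13, by omega⟩) ((fun z : Fin 14 => if z.val = 13 then (13 : Fin 14) else
        ⟨iv (k.val + 1) * z.val % 13, by omega⟩) z) = z := by decide +kernel
    exact this k

theorem mu_13 : ∀ k, mu k 13 = 13 := by decide +kernel
theorem mu_0 : ∀ k, mu k 0 = 0 := by decide +kernel
theorem mu_exists : ∀ j : Fin 14, 0 < j.val → j.val < 13 → ∃ k, mu k j = 1 ∧ ∀ z : Fin 14, 0 < z.val → z.val < 13 →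
    (mu k z : ℕ) = rat j z := by decide +kernel
theorem mu_rat : ∀ k, ∀ z w : Fin 14, 0 < z.val → z.val < 13 → 0 < w.val → w.val < 13 →
    rat (mu k z) (mu k w) = rat z w := by decide +kernel
theorem mu_y : ∀ k, ∃ m : Fin 13, (mu k)⁻¹ * yY * mu k = yY ^ m.val := by decide +kernel
theorem mu_e : ∀ k, ∀ e ∈ sq, ∃ e' ∈ sq, ∀ z w : Fin 14, (w : ℕ) = af e 0 (iv (mu k z)) →
    ((mu k)⁻¹ w : ℕ) = af e' 0 (iv z) := by decide +kernel
theorem rat_range : ∀ z w : Fin 14, 0 < z.val → z.val < 13 → 0 < w.val → w.val < 13 → z ≠ w →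
    2 ≤ rat z w ∧ rat z w ≤ 12 := by decide +kernel

theorem c0_spec : ∀ r < 13, 2 ≤ r → ∀ z < 14, look (c0 r) z = (if z = 0 then 13 else if z = 1 then r else
    if z = r then 1 else 0) := by decide +kernel
theorem u0_spec : ∀ r < 13, 2 ≤ r → ∀ z < 14, (u0 r).testBit z = decide (z = 0 ∨ z = 1 ∨ z = r ∨ z = 13) := by
  decide +kernel

theorem concl_conj {t : Perm (Fin 14)} (k : Fin 12) (h : Concl3 (mu k * t * (mu k)⁻¹)) : Concl3 t := by
  rcases h with ⟨e, he, h⟩ | ⟨w, hw, hq⟩
  · obtain ⟨e', he', h'⟩ := mu_e k e he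
    refine Or.inl ⟨e', he', fun z => ?_⟩
    have h1 := h (mu k z)
    rw [Perm.mul_apply, Perm.mul_apply, ia] at h1
    have h2 := h' z (mu k (t z)) h1
    rw [ia] at h2
    exact h2
  · obtain ⟨m, hm⟩ := mu_y k
    refine Or.inr ⟨(mu k)⁻¹ * w * mu k, ?_, ?_⟩
    · have h2 : (mu k)⁻¹ * w * mu k = (MulAut.conj (mu k)⁻¹).toMonoidHom w := by simp
      rw [h2]
      have h3 : (Subgroup.closure ({yY, mu k * t * (mu k)⁻¹} : Set (Perm (Fin 14)))).map
          (MulAut.conj (mu k)⁻¹).toMonoidHom ≤ Subgroup.closure ({yY, t} : Set (Perm (Fin 14))) := by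
        have e1 : (MulAut.conj (mu k)⁻¹).toMonoidHom yY = yY ^ m.val := by
          rw [← hm]
          simp only [MulEquiv.toMonoidHom_eq_coe, MonoidHom.coe_coe, MulAut.conj_apply]; group
        have e2 : (MulAut.conj (mu k)⁻¹).toMonoidHom (mu k * t * (mu k)⁻¹) = t := by
          simp only [MulEquiv.toMonoidHom_eq_coe, MonoidHom.coe_coe, MulAut.conj_apply]; group
        rw [MonoidHom.map_closure, Set.image_pair, e1, e2, Subgroup.closure_le]
        rintro z (rfl | rfl)
        · exact mem_ya t m.val
        · exact mem_t _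
      exact h3 (Subgroup.mem_map_of_mem _ hw)
    · have := qc_conj hq (mu k)⁻¹
      rw [inv_inv] at this
      exact this

theorem b3 : B3 := by
  intro t htt hs h13
  have ttz : ∀ z, t (t z) = z := by
    intro z
    have := congrArg (fun x : Perm (Fin 14) => x z) htt
    simpa using this
  have h0 : t 0 = 13 := by rw [← h13, ttz]
  show Concl3 t
  have hin : ∀ z : Fin 14, 0 < z.val → z.val < 13 → 0 < (t z).val ∧ (t z).val < 13 := by
    intro z hz0 hz13
    constructor
    · rw [Nat.pos_iff_ne_zero]
      intro h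
      have h1 : t z = 0 := Fin.ext h
      have h2 : z = 13 := by rw [← ttz z, h1, h0]
      rw [h2] at hz13
      exact absurd hz13 (by decide)
    · by_contra h
      have h1 : t z = 13 := Fin.ext (by have := (t z).2; show (t z).val = 13; omega)
      have h2 : z = 0 := by rw [← ttz z, h1, h13]
      rw [h2] at hz0
      exact absurd hz0 (by decide)
  obtain ⟨M, hM⟩ : ∃ M : Finset (Fin 14), M = Finset.univ.filter (fun z => 0 < z.val ∧ z.val < 13 ∧ t z ≠ z) := ⟨_, rfl⟩
  have hMne : M.Nonempty := by
    by_contra hne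
    rw [Finset.not_nonempty_iff_eq_empty] at hne
    have hsup : t.support = {0, 13} := by
      ext z
      simp only [Perm.mem_support, Finset.mem_insert, Finset.mem_singleton]
      constructor
      · intro hz
        by_contra hcon
        push Not at hcon
        have : z ∈ M := by
          rw [hM]
          simp only [Finset.mem_filter, Finset.mem_univ, true_and]
          refine ⟨?_, ?_, hz⟩
          · rw [Nat.pos_iff_ne_zero]; intro h; exact hcon.1 (Fin.ext h)
          · have h1 : z.val ≠ 13 := fun h => hcon.2 (Fin.ext h)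
            have := z.2
            omega
        rw [hne] at this
        simp at this
      · rintro (rfl | rfl)
        · rw [h0]; decide
        · rw [h13]; decide
    have := sign_invol htt (by rw [hsup]; decide)
    rw [hs] at this
    exact absurd this (by decide)
  obtain ⟨j, hj, hmin⟩ := M.exists_min_image (fun z => rat z (t z)) hMne
  rw [hM] at hj
  simp only [Finset.mem_filter, Finset.mem_univ, true_and] at hj
  obtain ⟨hj0, hj13, hjt⟩ := hj
  obtain ⟨k, hk1, hk2⟩ := mu_exists j hj0 hj13
  obtain ⟨r, hr⟩ : ∃ r, r = rat j (t j) := ⟨_, rfl⟩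
  have hrange := rat_range j (t j) hj0 hj13 (hin j hj0 hj13).1 (hin j hj0 hj13).2 (fun h => hjt h.symm)
  rw [← hr] at hrange
  apply concl_conj k
  obtain ⟨x, hx⟩ : ∃ x, x = mu k * t * (mu k)⁻¹ := ⟨_, rfl⟩
  have hxmu : ∀ z, x (mu k z) = mu k (t z) := by
    intro z
    rw [hx, Perm.mul_apply, Perm.mul_apply, ia]
  rw [← hx]
  have hxx : x * x = 1 := by
    have : x * x = mu k * (t * t) * (mu k)⁻¹ := by rw [hx]; group
    rw [this, htt]; group
  have hxs : Perm.sign x = 1 := by
    rw [hx, map_mul, map_mul, hs, mul_one, ← map_mul]; simp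
  have x13 : x 13 = 0 := by rw [← mu_13 k, hxmu, h13, mu_0]
  have x0 : x 0 = 13 := by
    have := hxmu 0
    rwa [mu_0, h0, mu_13] at this
  have x1 : (x 1 : ℕ) = r := by
    rw [← hk1, hxmu, hk2 _ (hin j hj0 hj13).1 (hin j hj0 hj13).2, hr]
  have xxz : ∀ z, x (x z) = z := by
    intro z
    have := congrArg (fun y : Perm (Fin 14) => y z) hxx
    simpa using this
  obtain ⟨R, hR⟩ : ∃ R : Fin 14, R.val = r := ⟨⟨r, by omega⟩, rfl⟩
  have x1' : x 1 = R := Fin.ext (by rw [x1, hR])
  have xR : x R = 1 := by rw [← x1', xxz]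
  refine dfs3_sound (r := r) hxx hxs ?_ 11 (c0 r) (u0 r) (by norm_num) ?_ ?_ (all3_all r hrange.1 hrange.2)
  · intro z hz0 hz13 hz
    obtain ⟨w, hw⟩ : ∃ w, w = (mu k)⁻¹ z := ⟨_, rfl⟩
    have hzw : z = mu k w := by rw [hw, ai]
    have hw0 : 0 < w.val := by
      rw [Nat.pos_iff_ne_zero]
      intro h
      have : w = 0 := Fin.ext h
      rw [hzw, this, mu_0] at hz0
      exact absurd hz0 (by decide)
    have hw13 : w.val < 13 := by
      by_contra h
      have : w = 13 := Fin.ext (by have := w.2; show w.val = 13; omega)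
      rw [hzw, this, mu_13] at hz13
      exact absurd hz13 (by decide)
    have hwt : t w ≠ w := by
      intro h
      apply hz
      rw [hzw, hxmu, h]
    have h1 := hmin w (by
      rw [hM]
      simp only [Finset.mem_filter, Finset.mem_univ, true_and]
      exact ⟨hw0, hw13, hwt⟩)
    rw [hzw, hxmu, mu_rat k w (t w) hw0 hw13 (hin w hw0 hw13).1 (hin w hw0 hw13).2, hr]
    exact h1
  · rw [u0_spec r (by omega) hrange.1 0 (by norm_num)]; simp
  · have hc : ∀ z : Fin 14, look (c0 r) z = (if z.val = 0 then 13 else if z.val = 1 then r else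
        if z.val = r then 1 else 0) := fun z => c0_spec r (by omega) hrange.1 z.val z.2
    have hu : ∀ z : Fin 14, (u0 r).testBit z = decide (z.val = 0 ∨ z.val = 1 ∨ z.val = r ∨ z.val = 13) :=
      fun z => u0_spec r (by omega) hrange.1 z.val z.2
    refine ⟨?_, ?_, ?_, ?_, ?_⟩
    · intro z hz
      rw [hu, decide_eq_true_eq] at hz
      rw [hc]
      rcases hz with h | h | h | h
      · have : z = 0 := Fin.ext h
        rw [this, x0]; rfl
      · have : z = 1 := Fin.ext h
        rw [this, x1]; rfl
      · have : z = R := Fin.ext (by rw [h, hR])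
        rw [if_neg (by omega), if_neg (by omega), if_pos h, this, xR]; rfl
      · have : z = 13 := Fin.ext h
        rw [this, x13, if_neg (by decide), if_neg (by decide), if_neg (by
          intro h; have : (13 : Fin 14).val = 13 := rfl
          omega)]
        rfl
    · intro z hz
      rw [hu, decide_eq_false_iff_not] at hz
      push Not at hz
      rw [hc, if_neg hz.1, if_neg hz.2.1, if_neg hz.2.2.1]
    · intro z
      rw [hu, hu, decide_eq_decide]
      have key : ∀ z : Fin 14, (z.val = 0 ∨ z.val = 1 ∨ z.val = r ∨ z.val = 13) →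
          ((x z).val = 0 ∨ (x z).val = 1 ∨ (x z).val = r ∨ (x z).val = 13) := by
        intro z hz
        rcases hz with h | h | h | h
        · have : z = 0 := Fin.ext h
          rw [this, x0]; right; right; right; rfl
        · have : z = 1 := Fin.ext h
          rw [this, x1]; right; right; left; rfl
        · have : z = R := Fin.ext (by rw [h, hR])
          rw [this, xR]; right; left; rfl
        · have : z = 13 := Fin.ext h
          rw [this, x13]; left; rfl
      constructor
      · exact key z
      · intro h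
        have := key (x z) h
        rwa [xxz] at this
    · intro z hz
      rw [hu, decide_eq_true_eq]
      omega
    · have := hu 13
      rw [show ((13 : Fin 14) : ℕ) = 13 from rfl] at this
      rw [this]; simp

end Pool.Agent.V8H69.TD
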