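import Pool.Agent.V8H69.TD.B4Def

/-!
# The check, element 1, part 0 of the relabellings
-/

set_option autoImplicit false
set_option maxRecDepth 100000

namespace Pool.Agent.V8H69.TD

theorem k1_0_0 : chkB 1 1790598663747361 = true := by decide +kernel
theorem k1_0_1 : chkB 1 1786419593640481 = true := by decide +kernel
theorem k1_0_2 : chkB 1 1788734614248481 = true := by decide +kernel
theorem k1_0_3 : chkB 1 1791771089225761 = true := by decide +kernel
theorem k1_0_4 : chkB 1 1787562071788321 = true := by decide +kernel
theorem k1_0_5 : chkB 1 1789426120830241 = true := by decide +kernel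
theorem k1_0_6 : chkB 1 1785247050750241 = true := by decide +kernel

theorem chk_1_0 : ∀ lc ∈ LAM0, chkB 1 lc = true := by
  intro lc h
  simp only [LAM0, List.mem_cons, List.not_mem_nil, or_false] at h
  rcases h with rfl | rfl | rfl | rfl | rfl | rfl | rfl
  · exact k1_0_0
  · exact k1_0_1
  · exact k1_0_2
  · exact k1_0_3
  · exact k1_0_4
  · exact k1_0_5
  · exact k1_0_6

end Pool.Agent.V8H69.TD
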