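import Pool.Agent.V8H69.TD.B4Def

/-!
# The check, element 2, part 1 of the relabellings
-/

set_option autoImplicit false
set_option maxRecDepth 100000

namespace Pool.Agent.V8H69.TD

theorem k2_1_0 : chkB 2 3243957204260641 = true := by decide +kernel
theorem k2_1_1 : chkB 2 2768959052151841 = true := by decide +kernel
theorem k2_1_2 : chkB 2 3543028924131361 = true := by decide +kernel
theorem k2_1_3 : chkB 2 2469887324969761 = true := by decide +kernel
theorem k2_1_4 : chkB 2 3842070586571041 = true := by decide +kernel
theorem k2_1_5 : chkB 2 2944885477051681 = true := by decide +kernel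
theorem k2_1_6 : chkB 2 2170817476807201 = true := by decide +kernel

theorem chk_2_1 : ∀ lc ∈ LAM1, chkB 2 lc = true := by
  intro lc h
  simp only [LAM1, List.mem_cons, List.not_mem_nil, or_false] at h
  rcases h with rfl | rfl | rfl | rfl | rfl | rfl | rfl
  · exact k2_1_0
  · exact k2_1_1
  · exact k2_1_2
  · exact k2_1_3
  · exact k2_1_4
  · exact k2_1_5
  · exact k2_1_6

end Pool.Agent.V8H69.TD
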