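import Pool.Agent.V8H69.TD.B4Def

/-!
# The check, element 2, part 2 of the relabellings
-/

set_option autoImplicit false
set_option maxRecDepth 100000

namespace Pool.Agent.V8H69.TD

theorem k2_2_0 : chkB 2 2773405397632801 = true := by decide +kernel
theorem k2_2_1 : chkB 2 3550759047612961 = true := by decide +kernel
theorem k2_2_2 : chkB 2 2473238453701921 = true := by decide +kernel
theorem k2_2_3 : chkB 2 3250592104139041 = true := by decide +kernel
theorem k2_2_4 : chkB 2 3843229410151201 = true := by decide +kernel
theorem k2_2_5 : chkB 2 2950427039254561 = true := by decide +kernel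
theorem k2_2_6 : chkB 2 2173071517109281 = true := by decide +kernel

theorem chk_2_2 : ∀ lc ∈ LAM2, chkB 2 lc = true := by
  intro lc h
  simp only [LAM2, List.mem_cons, List.not_mem_nil, or_false] at h
  rcases h with rfl | rfl | rfl | rfl | rfl | rfl | rfl
  · exact k2_2_0
  · exact k2_2_1
  · exact k2_2_2
  · exact k2_2_3
  · exact k2_2_4
  · exact k2_2_5
  · exact k2_2_6

end Pool.Agent.V8H69.TD
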