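import Pool.Agent.V8H69.TD.B4Cov
import Pool.Agent.V8H69.TD.B4_0_0
import Pool.Agent.V8H69.TD.B4_0_1
import Pool.Agent.V8H69.TD.B4_0_2
import Pool.Agent.V8H69.TD.B4_1_0
import Pool.Agent.V8H69.TD.B4_1_1
import Pool.Agent.V8H69.TD.B4_1_2
import Pool.Agent.V8H69.TD.B4_2_0
import Pool.Agent.V8H69.TD.B4_2_1
import Pool.Agent.V8H69.TD.B4_2_2
import Pool.Agent.V8H69.TD.B4_3_0
import Pool.Agent.V8H69.TD.B4_3_1
import Pool.Agent.V8H69.TD.B4_3_2

/-!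
# Proof of (B4B)
-/

set_option autoImplicit false

namespace Pool.Agent.V8H69.TD

open Equiv

theorem chk_all (i : Fin 4) : ∀ lc ∈ LAM, chkB i lc = true := by
  intro lc hlc
  unfold LAM at hlc
  rw [List.mem_append, List.mem_append] at hlc
  fin_cases i
  · rcases hlc with (h | h) | h
    · exact chk_0_0 lc h
    · exact chk_0_1 lc h
    · exact chk_0_2 lc h
  · rcases hlc with (h | h) | h
    · exact chk_1_0 lc h
    · exact chk_1_1 lc h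
    · exact chk_1_2 lc h
  · rcases hlc with (h | h) | h
    · exact chk_2_0 lc h
    · exact chk_2_1 lc h
    · exact chk_2_2 lc h
  · rcases hlc with (h | h) | h
    · exact chk_3_0 lc h
    · exact chk_3_1 lc h
    · exact chk_3_2 lc h

theorem b4b : B4B := by
  intro i l h13 h0 h1 hK x hx hKx
  obtain ⟨lc, hlc, hl⟩ := lam l h13 h0 h1 hK
  have hne : l⁻¹ * ((g i)⁻¹ * x * g i) * l ≠ 1 := by
    intro h
    apply hx
    have : x = g i * (l * (l⁻¹ * ((g i)⁻¹ * x * g i) * l) * l⁻¹) * (g i)⁻¹ := by group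
    rw [this, h]; group
  obtain ⟨k, rc, hrc, hrk⟩ := cov _ hKx hne
  obtain ⟨j, hj⟩ := chkB_spec hl (chk_all i lc hlc) hrc hrk
  refine ⟨j, succ_conj (succ_pow (k := k) ?_)⟩
  have e1 : (l⁻¹ * ((g i)⁻¹ * x * g i) * l) ^ k = l⁻¹ * ((g i)⁻¹ * x ^ k * g i) * l := by
    have : l⁻¹ * ((g i)⁻¹ * x * g i) * l = (l⁻¹ * (g i)⁻¹) * x * (l⁻¹ * (g i)⁻¹)⁻¹ := by group
    rw [this, conj_pow]; group
  have e2 : ((g j)⁻¹ * x * g j) ^ k = (g j)⁻¹ * x ^ k * g j := by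
    have : (g j)⁻¹ * x * g j = (g j)⁻¹ * x * ((g j)⁻¹)⁻¹ := by group
    rw [this, conj_pow]; group
  rw [e1] at hj
  rw [e2]
  have e3 : (g j)⁻¹ * x ^ k * g j = (g j)⁻¹ * g i * l * (l⁻¹ * ((g i)⁻¹ * x ^ k * g i) * l) *
    ((g j)⁻¹ * g i * l)⁻¹ := by group
  rw [e3]
  exact hj

end Pool.Agent.V8H69.TD
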