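import Pool.Agent.V8H69.TD.B5_0
import Pool.Agent.V8H69.TD.B5_1
import Pool.Agent.V8H69.TD.B5_2
import Pool.Agent.V8H69.TD.B5_3

/-!
# Proof of (B5)
-/

set_option autoImplicit false

namespace Pool.Agent.V8H69.TD

open Equiv

theorem b5 : B5 := by
  intro x hs hx
  by_cases h7 : ∀ i : Fin 4, Pres 7 ((g i)⁻¹ * x * g i)
  · exact bip_case x hs h7
  · push Not at h7
    obtain ⟨i, hi⟩ := h7
    obtain ⟨c, hc, hc'⟩ := hx i
    have hc7 : c ≠ 7 := by
      rintro rfl
      exact hi hc'
    fin_cases i
    · have h : c = 0 ∨ c = 1 ∨ c = 2 ∨ c = 3 ∨ c = 4 ∨ c = 5 ∨ c = 6 := by omega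
      rcases h with rfl | rfl | rfl | rfl | rfl | rfl | rfl
      · exact case00 x hs hx hc'
      · exact case01 x hs hx hc'
      · exact case02 x hs hx hc'
      · exact case03 x hs hx hc'
      · exact case04 x hs hx hc'
      · exact case05 x hs hx hc'
      · exact case06 x hs hx hc'
    · have h : c = 0 ∨ c = 1 ∨ c = 2 ∨ c = 3 ∨ c = 4 ∨ c = 5 ∨ c = 6 := by omega
      rcases h with rfl | rfl | rfl | rfl | rfl | rfl | rfl
      · exact case10 x hs hx hc'
      · exact case11 x hs hx hc'
      · exact case12 x hs hx hc'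
      · exact case13 x hs hx hc'
      · exact case14 x hs hx hc'
      · exact case15 x hs hx hc'
      · exact case16 x hs hx hc'
    · have h : c = 0 ∨ c = 1 ∨ c = 2 ∨ c = 3 ∨ c = 4 ∨ c = 5 ∨ c = 6 := by omega
      rcases h with rfl | rfl | rfl | rfl | rfl | rfl | rfl
      · exact case20 x hs hx hc'
      · exact case21 x hs hx hc'
      · exact case22 x hs hx hc'
      · exact case23 x hs hx hc'
      · exact case24 x hs hx hc'
      · exact case25 x hs hx hc'
      · exact case26 x hs hx hc'
    · have h : c = 0 ∨ c = 1 ∨ c = 2 ∨ c = 3 ∨ c = 4 ∨ c = 5 ∨ c = 6 := by omega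
      rcases h with rfl | rfl | rfl | rfl | rfl | rfl | rfl
      · exact case30 x hs hx hc'
      · exact case31 x hs hx hc'
      · exact case32 x hs hx hc'
      · exact case33 x hs hx hc'
      · exact case34 x hs hx hc'
      · exact case35 x hs hx hc'
      · exact case36 x hs hx hc'

end Pool.Agent.V8H69.TD
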