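import Mathlib

/-!
# A base of five subsets
-/

set_option autoImplicit false

namespace Pool.Agent.V8H69.TD

open Equiv

/-- the point `z` is in the subset `i` of the base -/
def bb (i : Fin 5) : Finset (Fin 14) := Finset.univ.filter (fun z => (569975164891843549756805938807040 >>> (8 * z.val + i.val)) % 2 = 1)

theorem bb_card : ∀ i, (bb i).card = 5 := by decide +kernel

theorem bb_inj : ∀ i j, bb i = bb j → i = j := by decide +kernel

theorem bb_sep : ∀ w z : Fin 14, (∀ i, w ∈ bb i ↔ z ∈ bb i) → w = z := by decide +kernel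

theorem base_five : ∃ B : Finset (Finset (Fin 14)), B.card = 5 ∧ (∀ b ∈ B, b.card = 5) ∧
    ∀ x : Perm (Fin 14), (∀ b ∈ B, b.map x.toEmbedding = b) → x = 1 := by
  refine ⟨Finset.univ.image bb, ?_, ?_, ?_⟩
  · rw [Finset.card_image_of_injective _ (fun i j h => bb_inj i j h)]; rfl
  · intro b hb
    obtain ⟨i, _, rfl⟩ := Finset.mem_image.1 hb
    exact bb_card i
  · intro x hx
    ext z
    have hmem : ∀ i, (x z ∈ bb i ↔ z ∈ bb i) := by
      intro i
      have h1 := hx (bb i) (Finset.mem_image_of_mem _ (Finset.mem_univ i))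
      conv_lhs => rw [← h1]
      rw [Finset.mem_map_equiv]
      simp
    rw [bb_sep _ _ hmem]
    rfl

end Pool.Agent.V8H69.TD
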