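import Mathlib

/-!
# Three elements are not enough
-/

set_option autoImplicit false

namespace Pool.Agent.V8H69.TD

open Equiv

/-- an even permutation of `14` points preserves a proper nonempty subset -/
theorem exists_subset (s : Perm (Fin 14)) (hs : Perm.sign s = 1) :
    ∃ A : Finset (Fin 14), (∃ a, a ∈ A) ∧ (∃ b, b ∉ A) ∧ ∀ z, s z ∈ A ↔ z ∈ A := by
  classical
  refine ⟨Finset.univ.filter (fun z => s.SameCycle 0 z), ⟨0, by simpa using Perm.SameCycle.refl s 0⟩, ?_, ?_⟩
  · by_contra h
    push Not at h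
    have hall : ∀ z, s.SameCycle 0 z := by
      intro z
      simpa using h z
    have h0 : s 0 ≠ 0 := by
      intro h0
      obtain ⟨k, hk⟩ := hall 1
      have : (s ^ k) 0 = 0 := Perm.zpow_apply_eq_self_of_apply_eq_self h0 k
      rw [this] at hk
      exact absurd hk (by decide)
    have hcyc : s.IsCycle := ⟨0, h0, fun y _ => hall y⟩
    have hsup : s.support = Finset.univ := by
      ext z
      simp only [Perm.mem_support, Finset.mem_univ, iff_true]
      intro hz
      exact h0 ((hall z).apply_eq_self_iff.2 hz)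
    have := hcyc.sign
    rw [hsup, hs] at this
    simp at this
    exact absurd this (by decide)
  · intro z
    simp

theorem swap_mem {A : Finset (Fin 14)} {a b : Fin 14} (h : a ∈ A ↔ b ∈ A) (z : Fin 14) :
    swap a b z ∈ A ↔ z ∈ A := by
  rw [swap_apply_def]
  split_ifs with h1 h2
  · rw [h1]; exact h.symm
  · rw [h2]; exact h
  · rfl

/-- at most three subsets are preserved by a nontrivial even permutation -/
theorem three_subsets (F : Finset (Finset (Fin 14))) (hF : F.card ≤ 3) :
    ∃ x : Perm (Fin 14), Perm.sign x = 1 ∧ x ≠ 1 ∧ ∀ A ∈ F, ∀ z, x z ∈ A ↔ z ∈ A := by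
  classical
  have hpow : F.powerset.card ≤ 8 := by
    rw [Finset.card_powerset]
    calc 2 ^ F.card ≤ 2 ^ 3 := Nat.pow_le_pow_right (by norm_num) hF
      _ = 8 := by norm_num
  have hmap : ∀ T : Finset (Fin 14), Set.MapsTo (fun z : Fin 14 => F.filter (fun A => z ∈ A)) T F.powerset := by
    intro T z _
    simp only [Finset.coe_powerset, Set.mem_preimage, Set.mem_powerset_iff, Finset.coe_subset]
    exact Finset.filter_subset _ _
  obtain ⟨a, _, b, _, hab, hab'⟩ := Finset.exists_ne_map_eq_of_card_lt_of_maps_to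
    (s := (Finset.univ : Finset (Fin 14))) (t := F.powerset) (by rw [Finset.card_univ, Fintype.card_fin]; omega)
    (hmap _)
  have hcard : F.powerset.card < ((Finset.univ : Finset (Fin 14)) \ {a, b}).card := by
    rw [Finset.card_sdiff_of_subset (Finset.subset_univ _), Finset.card_univ, Fintype.card_fin, Finset.card_pair hab]
    omega
  obtain ⟨c, hc, d, hd, hcd, hcd'⟩ := Finset.exists_ne_map_eq_of_card_lt_of_maps_to hcard (hmap _)
  simp only [Finset.mem_sdiff, Finset.mem_univ, true_and, Finset.mem_insert, Finset.mem_singleton, not_or] at hc hd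
  have hmem : ∀ {u v : Fin 14}, F.filter (fun A => u ∈ A) = F.filter (fun A => v ∈ A) →
      ∀ A ∈ F, (u ∈ A ↔ v ∈ A) := by
    intro u v h A hA
    have := Finset.ext_iff.1 h A
    simpa [hA] using this
  refine ⟨swap a b * swap c d, ?_, ?_, ?_⟩
  · rw [map_mul, Perm.sign_swap hab, Perm.sign_swap hcd]; decide
  · intro h
    have h1 := congrArg (fun x : Perm (Fin 14) => x a) h
    simp only [Perm.mul_apply, Perm.one_apply] at h1
    rw [swap_apply_of_ne_of_ne (Ne.symm hc.1) (Ne.symm hd.1), swap_apply_left] at h1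
    exact hab h1.symm
  · intro A hA z
    rw [Perm.mul_apply, swap_mem (hmem hab' A hA), swap_mem (hmem hcd' A hA)]

theorem four_points : ∀ a b : Fin 14, ∃ c d : Fin 14, c ≠ d ∧ c ≠ a ∧ c ≠ b ∧ d ≠ a ∧ d ≠ b := by decide +kernel

theorem lower (S : Finset (alternatingGroup (Fin 14)))
    (hS : ∀ x : alternatingGroup (Fin 14), x ≠ 1 → ∃ s ∈ S,
      Subgroup.closure ({x, s} : Set (alternatingGroup (Fin 14))) = ⊤) : 4 ≤ S.card := by
  classical
  by_contra hcon
  push Not at hcon
  choose A hA1 hA2 hA3 using fun s : alternatingGroup (Fin 14) =>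
    exists_subset (s : Perm (Fin 14)) (Perm.mem_alternatingGroup.1 s.2)
  obtain ⟨x, hx1, hx2, hx3⟩ := three_subsets (S.image A) (by
    have := Finset.card_image_le (s := S) (f := A); omega)
  obtain ⟨s, hs, htop⟩ := hS ⟨x, Perm.mem_alternatingGroup.2 hx1⟩ (fun h => hx2 (congrArg Subtype.val h))
  have key : ∀ w : alternatingGroup (Fin 14), ∀ z, (w : Perm (Fin 14)) z ∈ A s ↔ z ∈ A s := by
    intro w
    have hw : w ∈ Subgroup.closure ({⟨x, Perm.mem_alternatingGroup.2 hx1⟩, s} : Set (alternatingGroup (Fin 14))) := by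
      rw [htop]; trivial
    induction hw using Subgroup.closure_induction with
    | mem y hy =>
      rcases hy with rfl | rfl
      · exact hx3 (A s) (Finset.mem_image_of_mem _ hs)
      · exact hA3 _
    | one => intro z; rfl
    | mul y y' _ _ h1 h2 =>
      intro z
      have : ((y * y' : alternatingGroup (Fin 14)) : Perm (Fin 14)) z = (y : Perm (Fin 14)) ((y' : Perm (Fin 14)) z) := rfl
      rw [this, h1, h2]
    | inv y _ h1 =>
      intro z
      have h2 := h1 (((y⁻¹ : alternatingGroup (Fin 14)) : Perm (Fin 14)) z)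
      have h3 : (y : Perm (Fin 14)) (((y⁻¹ : alternatingGroup (Fin 14)) : Perm (Fin 14)) z) = z :=
        (y : Perm (Fin 14)).apply_symm_apply z
      rw [h3] at h2
      exact h2.symm
  obtain ⟨a, ha⟩ := hA1 s
  obtain ⟨b, hb⟩ := hA2 s
  have hab : a ≠ b := fun h => hb (h ▸ ha)
  obtain ⟨c, d, hcd, hca, hcb, hda, hdb⟩ := four_points a b
  have h1 := key ⟨swap a b * swap c d, Perm.mem_alternatingGroup.2 (by
    rw [map_mul, Perm.sign_swap hab, Perm.sign_swap hcd]; decide)⟩ a
  have h2 : (swap a b * swap c d) a = b := by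
    rw [Perm.mul_apply, swap_apply_of_ne_of_ne (Ne.symm hca) (Ne.symm hda), swap_apply_left]
  simp only [h2] at h1
  exact hb (h1.2 ha)

end Pool.Agent.V8H69.TD
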