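import Pool.Agent.V8H69.TD.B4Lem
import Pool.Agent.Helper999.HMJordan

/-!
# Doubly homogeneous groups of degree `14`
-/

set_option autoImplicit false

namespace Pool.Agent.V8H69.TD

open Equiv

/-- `2`-transitivity -/
def T2 (G : Subgroup (Perm (Fin 14))) : Prop :=
  ∀ a b c d : Fin 14, a ≠ b → c ≠ d → ∃ h ∈ G, h a = c ∧ h b = d

theorem third : ∀ a c : Fin 14, ∃ b : Fin 14, b ≠ a ∧ b ≠ c := by decide +kernel

theorem two_trans {G : Subgroup (Perm (Fin 14))} (hG : ∀ a b c d : Fin 14, a ≠ b → c ≠ d →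
    ∃ h ∈ G, (h a = c ∧ h b = d) ∨ (h a = d ∧ h b = c)) : T2 G := by
  have htr : ∀ a c : Fin 14, ∃ h ∈ G, h a = c := by
    intro a c
    obtain ⟨b, hba, hbc⟩ := third a c
    obtain ⟨h, hh, h1 | h1⟩ := hG a b c b (Ne.symm hba) (Ne.symm hbc)
    · exact ⟨h, hh, h1.1⟩
    · exact ⟨h * h, G.mul_mem hh hh, by rw [Perm.mul_apply, h1.1, h1.2]⟩
  have hdvd : 2 ∣ Nat.card G := by
    have h1 : MulAction.orbit G (0 : Fin 14) = Set.univ := by
      ext c
      simp only [Set.mem_univ, iff_true]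
      obtain ⟨h, hh, hc⟩ := htr 0 c
      exact ⟨⟨h, hh⟩, hc⟩
    have h2 := Nat.card_congr (MulAction.orbitProdStabilizerEquivGroup G (0 : Fin 14))
    rw [Nat.card_prod, h1, Nat.card_univ, Nat.card_eq_fintype_card, Fintype.card_fin] at h2
    rw [← h2]
    exact Dvd.dvd.mul_right (by norm_num) _
  obtain ⟨z, hz⟩ := exists_prime_orderOf_dvd_card' (G := G) 2 hdvd
  have hzz : (z : Perm (Fin 14)) * z = 1 := by
    have : z ^ 2 = 1 := by rw [← hz]; exact pow_orderOf_eq_one z
    have h1 := congrArg Subtype.val this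
    simpa [pow_two] using h1
  have hz1 : (z : Perm (Fin 14)) ≠ 1 := by
    intro h
    have : z = 1 := Subtype.ext h
    rw [this, orderOf_one] at hz
    exact absurd hz (by norm_num)
  obtain ⟨u, hu⟩ : ∃ u, (z : Perm (Fin 14)) u ≠ u := by
    by_contra hcon
    push Not at hcon
    exact hz1 (Perm.ext hcon)
  have hzu : (z : Perm (Fin 14)) ((z : Perm (Fin 14)) u) = u := by
    have := congrArg (fun x : Perm (Fin 14) => x u) hzz
    simpa using this
  intro a b c d hab hcd
  obtain ⟨h, hh, h1 | h1⟩ := hG a b c d hab hcd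
  · exact ⟨h, hh, h1⟩
  · -- swap `c` and `d`
    obtain ⟨k, hk, h2 | h2⟩ := hG u (z.1 u) c d (Ne.symm hu) hcd
    · refine ⟨k * z.1 * k⁻¹ * h, G.mul_mem (G.mul_mem (G.mul_mem hk z.2) (G.inv_mem hk)) hh, ?_, ?_⟩
      · have : k⁻¹ d = z.1 u := by rw [Perm.inv_eq_iff_eq, h2.2]
        rw [Perm.mul_apply, Perm.mul_apply, Perm.mul_apply, h1.1, this, hzu, h2.1]
      · have : k⁻¹ c = u := by rw [Perm.inv_eq_iff_eq, h2.1]
        rw [Perm.mul_apply, Perm.mul_apply, Perm.mul_apply, h1.2, this, h2.2]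
    · refine ⟨k * z.1 * k⁻¹ * h, G.mul_mem (G.mul_mem (G.mul_mem hk z.2) (G.inv_mem hk)) hh, ?_, ?_⟩
      · have : k⁻¹ d = u := by rw [Perm.inv_eq_iff_eq, h2.1]
        rw [Perm.mul_apply, Perm.mul_apply, Perm.mul_apply, h1.1, this, h2.2]
      · have : k⁻¹ c = z.1 u := by rw [Perm.inv_eq_iff_eq, h2.2]
        rw [Perm.mul_apply, Perm.mul_apply, Perm.mul_apply, h1.2, this, hzu, h2.1]

theorem jor : P1 → JOR := by
  intro hP x hx hq
  have h2 := two_trans (hP x hx)
  obtain ⟨w, hw, N, q, hqp, hq7, hc⟩ := hq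
  have hpre : MulAction.IsPreprimitive (Subgroup.closure ({x, sS} : Set (Perm (Fin 14)))) (Fin 14) := by
    apply MulAction.isPreprimitive_of_is_two_pretransitive
    rw [MulAction.is_two_pretransitive_iff]
    intro a b c d hab hcd
    obtain ⟨h, hh, h3⟩ := h2 a b c d hab hcd
    exact ⟨⟨h, hh⟩, h3⟩
  exact Pool.Agent.Helper999.HM.alt_le_of_qCyc hpre hqp (Subgroup.pow_mem _ hw N) hc
    (by rw [Nat.card_eq_fintype_card, Fintype.card_fin]; omega)

theorem exists_13 {G : Subgroup (Perm (Fin 14))} (hG : T2 G) :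
    ∃ y ∈ G, y ^ 13 = 1 ∧ y 0 = 0 ∧ y 1 = 2 := by
  have hdvd : 13 ∣ Nat.card G := by
    have h1 : MulAction.orbit G ((0, 1) : Fin 14 × Fin 14) = {p | p.1 ≠ p.2} := by
      ext ⟨c, d⟩
      simp only [Set.mem_setOf_eq]
      constructor
      · rintro ⟨h, hh⟩
        have e1 : h.1 0 = c := congrArg Prod.fst hh
        have e2 : h.1 1 = d := congrArg Prod.snd hh
        rw [← e1, ← e2]
        intro h3
        exact absurd (h.1.injective h3) (by decide)
      · intro hcd
        obtain ⟨h, hh, h3, h4⟩ := hG 0 1 c d (by decide) hcd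
        exact ⟨⟨h, hh⟩, Prod.ext h3 h4⟩
    have h2 := Nat.card_congr (MulAction.orbitProdStabilizerEquivGroup G ((0, 1) : Fin 14 × Fin 14))
    rw [Nat.card_prod, h1] at h2
    have h3 : Nat.card {p : Fin 14 × Fin 14 | p.1 ≠ p.2} = 182 := by
      rw [Nat.card_eq_fintype_card]
      decide +kernel
    rw [h3] at h2
    rw [← h2]
    exact Dvd.dvd.mul_right (by norm_num) _
  haveI : Fact (Nat.Prime 13) := ⟨by norm_num⟩
  obtain ⟨z, hz⟩ := exists_prime_orderOf_dvd_card' (G := G) 13 hdvd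
  obtain ⟨y, hy⟩ : ∃ y : Perm (Fin 14), y = z.1 := ⟨_, rfl⟩
  have hyG : y ∈ G := by rw [hy]; exact z.2
  have hord : orderOf y = 13 := by rw [hy, Subgroup.orderOf_coe, hz]
  have hy13 : y ^ 13 = 1 := by rw [← hord]; exact pow_orderOf_eq_one y
  have hy1 : y ≠ 1 := by
    intro h
    rw [h, orderOf_one] at hord
    exact absurd hord (by norm_num)
  have hall : ∀ k ∈ y.cycleType, k = 13 := by
    intro k hk
    have h1 := Perm.dvd_of_mem_cycleType hk
    have h2 := Perm.two_le_of_mem_cycleType hk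
    rw [hord] at h1
    have h4 := (Nat.dvd_prime (by norm_num : Nat.Prime 13)).1 h1
    omega
  have hrep := Multiset.eq_replicate_card.2 hall
  have hsum : y.cycleType.sum = y.support.card := Perm.sum_cycleType y
  rw [hrep, Multiset.sum_replicate, smul_eq_mul] at hsum
  have hle : y.support.card ≤ 14 := by
    have := Finset.card_le_univ y.support
    simpa using this
  have hpos : 0 < Multiset.card y.cycleType := by
    rw [Multiset.card_pos]
    intro h
    exact hy1 (Perm.cycleType_eq_zero.1 h)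
  have hc1 : Multiset.card y.cycleType = 1 := by omega
  have hcyc : y.IsCycle := Perm.card_cycleType_eq_one.1 hc1
  have hsc : y.support.card = 13 := by omega
  obtain ⟨f, hf⟩ : ∃ f, y f = f := by
    by_contra hcon
    push Not at hcon
    have : y.support = Finset.univ := by
      ext u; simp [Perm.mem_support, hcon u]
    rw [this] at hsc
    simp at hsc
  obtain ⟨k, hk, hkf⟩ : ∃ k ∈ G, k f = 0 := by
    obtain ⟨b, hb, _⟩ := third f 0
    obtain ⟨k, hk, h1, _⟩ := hG f b 0 1 (Ne.symm hb) (by decide)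
    exact ⟨k, hk, h1⟩
  obtain ⟨y2, hy2⟩ : ∃ y2, y2 = k * y * k⁻¹ := ⟨_, rfl⟩
  have hy2G : y2 ∈ G := by rw [hy2]; exact G.mul_mem (G.mul_mem hk hyG) (G.inv_mem hk)
  have hy2c : y2.IsCycle := by rw [hy2]; exact hcyc.conj
  have hy2s : y2.support.card = 13 := by rw [hy2, Perm.card_support_conj, hsc]
  have hy20 : y2 0 = 0 := by
    have : k⁻¹ 0 = f := by rw [Perm.inv_eq_iff_eq, hkf]
    rw [hy2, Perm.mul_apply, Perm.mul_apply, this, hf, hkf]
  have hy213 : y2 ^ 13 = 1 := by
    rw [hy2, conj_pow, hy13]; group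
  have hmov : ∀ u, u ≠ 0 → y2 u ≠ u := by
    intro u hu hfix
    have hsub : y2.support ⊆ Finset.univ \ {0, u} := by
      intro v hv
      rw [Perm.mem_support] at hv
      simp only [Finset.mem_sdiff, Finset.mem_univ, true_and, Finset.mem_insert, Finset.mem_singleton, not_or]
      exact ⟨fun h => hv (by rw [h, hy20]), fun h => hv (by rw [h, hfix])⟩
    have := Finset.card_le_card hsub
    rw [Finset.card_sdiff_of_subset (Finset.subset_univ _), Finset.card_univ, Fintype.card_fin,
      Finset.card_pair (Ne.symm hu), hy2s] at this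
    omega
  obtain ⟨i, hi⟩ := hy2c.exists_pow_eq (hmov 1 (by decide)) (hmov 2 (by decide))
  refine ⟨y2 ^ i, G.pow_mem hy2G i, ?_, ?_, hi⟩
  · rw [← pow_mul, mul_comm, pow_mul, hy213, one_pow]
  · exact Perm.pow_apply_eq_self_of_apply_eq_self hy20 i

theorem b4a : P1 → KM → B4A := by
  intro hP hKM x hs hx hq
  obtain ⟨G, hGdef⟩ : ∃ G, G = Subgroup.closure ({x, sS} : Set (Perm (Fin 14))) := ⟨_, rfl⟩
  have hT : T2 G := by rw [hGdef]; exact two_trans (hP x hx)
  rw [← hGdef] at hq
  have hxG : x ∈ G := by rw [hGdef]; exact Subgroup.subset_closure (by simp)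
  have hsG : sS ∈ G := by rw [hGdef]; exact Subgroup.subset_closure (by simp)
  have hsS : Perm.sign sS = 1 := by
    have h7 : sS ^ 7 = 1 := by decide +kernel
    rcases Int.units_eq_one_or (Perm.sign sS) with h | h
    · exact h
    · have h1 := congrArg Perm.sign h7
      rw [map_pow, h, map_one] at h1
      exact absurd h1 (by decide)
  have hGs : ∀ h ∈ G, Perm.sign h = 1 := by
    intro h hh
    have : G ≤ alternatingGroup (Fin 14) := by
      rw [hGdef, Subgroup.closure_le]
      rintro z (rfl | rfl)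
      · exact Perm.mem_alternatingGroup.2 hs
      · exact Perm.mem_alternatingGroup.2 hsS
    exact Perm.mem_alternatingGroup.1 (this hh)
  obtain ⟨y, hy, hy13, hy0, hy1⟩ := exists_13 hT
  have hper : Function.minimalPeriod y 1 = 13 := by
    have h1 : Function.IsPeriodicPt y 13 1 := by
      show y^[13] 1 = 1
      rw [Perm.iterate_eq_pow, hy13]; rfl
    have h2 := h1.minimalPeriod_dvd
    rcases (Nat.dvd_prime (by norm_num : Nat.Prime 13)).1 h2 with h3 | h3
    · rw [Function.minimalPeriod_eq_one_iff_isFixedPt] at h3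
      have h4 : y 1 = 1 := h3
      rw [hy1] at h4
      exact absurd h4 (by decide)
    · exact h3
  have hpow0 : ∀ i : ℕ, (y ^ i) 0 = 0 := fun i => Perm.pow_apply_eq_self_of_apply_eq_self hy0 i
  have hne0 : ∀ i : ℕ, (y ^ i) 1 ≠ 0 := by
    intro i h
    have h1 : (y ^ i) 1 = (y ^ i) 0 := by rw [h, hpow0]
    exact absurd ((y ^ i).injective h1) (by decide)
  obtain ⟨lf, hlf⟩ : ∃ lf : Fin 14 → Fin 14, lf = fun z => if z.val = 13 then 0 else (y ^ z.val) 1 := ⟨_, rfl⟩
  have hinj : Function.Injective lf := by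
    intro a b hab
    rw [hlf] at hab
    simp only at hab
    by_cases ha : a.val = 13
    · by_cases hb : b.val = 13
      · exact Fin.ext (by rw [ha, hb])
      · rw [if_pos ha, if_neg hb] at hab
        exact absurd hab.symm (hne0 _)
    · by_cases hb : b.val = 13
      · rw [if_neg ha, if_pos hb] at hab
        exact absurd hab (hne0 _)
      · rw [if_neg ha, if_neg hb] at hab
        have h1 : y^[a.val] 1 = y^[b.val] 1 := by
          rw [Perm.iterate_eq_pow, Perm.iterate_eq_pow]; exact hab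
        have h2 := (Function.iterate_eq_iterate_iff_of_lt_minimalPeriod
          (by rw [hper]; have := a.2; omega) (by rw [hper]; have := b.2; omega)).1 h1
        exact Fin.ext h2
  obtain ⟨l, hl⟩ : ∃ l : Perm (Fin 14), ∀ z, l z = lf z :=
    ⟨Equiv.ofBijective lf (Finite.injective_iff_bijective.1 hinj), fun z => rfl⟩
  have hl13 : l 13 = 0 := by rw [hl, hlf]; rfl
  have hlz : ∀ z : Fin 14, z.val < 13 → l z = (y ^ z.val) 1 := by
    intro z hz
    rw [hl, hlf]
    simp only
    rw [if_neg (by omega)]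
  have hl0 : l 0 = 1 := by rw [hlz 0 (by decide)]; rfl
  have hl1 : l 1 = 2 := by
    rw [hlz 1 (by decide)]
    show (y ^ 1) 1 = 2
    rw [pow_one, hy1]
  have hyl : l * yY * l⁻¹ = y := by
    ext u
    obtain ⟨z, rfl⟩ : ∃ z, u = l z := ⟨l⁻¹ u, (ai l u).symm⟩
    rw [Perm.mul_apply, Perm.mul_apply, ia]
    congr 1
    by_cases hz : z.val = 13
    · have hz' : z = 13 := Fin.ext hz
      have : yY 13 = 13 := by decide
      rw [hz', this, hl13, hy0]
    · by_cases hz2 : z.val = 12
      · have hz' : z = 12 := Fin.ext hz2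
        have : yY 12 = 0 := by decide
        rw [hz', this, hl0, hlz 12 (by decide)]
        have h1 : y ((y ^ ((12 : Fin 14) : ℕ)) 1) = (y ^ 13) 1 := by
          rw [show ((12 : Fin 14) : ℕ) = 12 from rfl, ← Perm.mul_apply, ← pow_succ']
        rw [h1, hy13]; rfl
      · have h1 : (yY z).val = z.val + 1 := by
          have : ∀ z : Fin 14, z.val ≠ 13 → z.val ≠ 12 → (yY z).val = z.val + 1 := by decide
          exact this z hz hz2
        have h2 := z.2
        rw [hlz _ (by omega), hlz _ (by omega), h1, pow_succ', Perm.mul_apply]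
  obtain ⟨H, hH⟩ : ∃ H : Subgroup (Perm (Fin 14)), ∀ h, h ∈ H ↔ l * h * l⁻¹ ∈ G :=
    ⟨G.comap (MulAut.conj l).toMonoidHom, fun h => Iff.rfl⟩
  have hK := hKM H (by
      intro h hh
      have h1 := hGs _ ((hH h).1 hh)
      rw [map_mul, map_mul, mul_comm, ← mul_assoc, ← map_mul] at h1
      simpa using h1) (by
      intro a b c d hab hcd
      obtain ⟨h, hh, h1, h2⟩ := hT (l a) (l b) (l c) (l d) (fun h => hab (l.injective h))
        (fun h => hcd (l.injective h))
      refine ⟨l⁻¹ * h * l, ?_, ?_, ?_⟩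
      · rw [hH]
        have : l * (l⁻¹ * h * l) * l⁻¹ = h := by group
        rw [this]; exact hh
      · rw [Perm.mul_apply, Perm.mul_apply, h1, ia]
      · rw [Perm.mul_apply, Perm.mul_apply, h2, ia]) (by
      rw [hH, hyl]; exact hy) (by
      intro w hw hqc
      exact hq _ ((hH w).1 hw) (qc_conj hqc l))
  refine ⟨l, hl13, hl0, hl1, hK _ ?_, hK _ ?_⟩
  · rw [hH]
    have : l * (l⁻¹ * sS * l) * l⁻¹ = sS := by group
    rw [this]; exact hsG
  · rw [hH]
    have : l * (l⁻¹ * x * l) * l⁻¹ = x := by group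
    rw [this]; exact hxG

end Pool.Agent.V8H69.TD
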