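import Mathlib

/-!
# Total dominating sets of size four in `A_14`: definitions for the computation
-/

set_option autoImplicit false

namespace Pool.Agent.V8H69.TD

open Equiv

/-- value at `z` of the map coded by `c` (four bits per value) -/
def look (c z : ℕ) : ℕ := Nat.land (Nat.shiftRight c (Nat.mul 4 z)) 15

/-- `c` codes the permutation `x` -/
def Codes (c : ℕ) (x : Perm (Fin 14)) : Prop := ∀ z : Fin 14, look c z = (x z : ℕ)

/-- The standard element of shape `[7, 7]`: `0 → 1 → ⋯ → 6 → 0`, `7 → 8 → ⋯ → 13 → 7`. -/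
def sS : Perm (Fin 14) where
  toFun z := if z.val < 7 then ⟨(z.val + 1) % 7, by omega⟩ else ⟨7 + (z.val - 7 + 1) % 7, by omega⟩
  invFun z := if z.val < 7 then ⟨(z.val + 6) % 7, by omega⟩ else ⟨7 + (z.val - 7 + 6) % 7, by omega⟩
  left_inv := by decide
  right_inv := by decide

/-- The colour of the pair `u, v`: `7` if both are `< 7` or both are `≥ 7`; otherwise `b - a mod 7` where `a < 7`
and `7 + b` are the two points. -/
def col (u v : Fin 14) : ℕ :=
  if u.val < 7 then (if v.val < 7 then 7 else (v.val - u.val) % 7)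
  else (if v.val < 7 then (u.val - v.val) % 7 else 7)

/-- `x` preserves the pairs of colour `c`. -/
def Pres (c : ℕ) (x : Perm (Fin 14)) : Prop := ∀ u v : Fin 14, u ≠ v → (col (x u) (x v) = c ↔ col u v = c)

/-- (P1) to be proved -/
def P1 : Prop := ∀ x : Perm (Fin 14), (∀ c < 8, ¬ Pres c x) → ∀ a b c d : Fin 14, a ≠ b → c ≠ d →
  ∃ h ∈ Subgroup.closure ({x, sS} : Set (Perm (Fin 14))), (h a = c ∧ h b = d) ∨ (h a = d ∧ h b = c)

/-- follow the cycle of `s`, from the point `w`; `len` points of the cycle have been seen, they are in `mask` -/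
def trav (nx : ℕ → ℕ) (s : ℕ) (f : ℕ) : ℕ → ℕ → ℕ → (ℕ → ℕ → Bool) → Bool :=
  Nat.rec (motive := fun _ => ℕ → ℕ → ℕ → (ℕ → ℕ → Bool) → Bool)
    (fun _ _ _ _ => false)
    (fun _ ih w mask len k =>
      cond (Nat.beq w s) (k mask len) (ih (nx w) (Nat.lor mask (Nat.shiftLeft 1 w)) (Nat.succ len) k))
    f

/-- run through the points `s, s + 1, …`, `f` of them; `mask` is the set of the points already seen, and
`n3, n5, n7` are the numbers of the seen points in cycles of length divisible by `3, 5, 7` -/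
def cyc (nx : ℕ → ℕ) (f : ℕ) : ℕ → ℕ → ℕ → ℕ → ℕ → Bool :=
  Nat.rec (motive := fun _ => ℕ → ℕ → ℕ → ℕ → ℕ → Bool)
  (fun _ _ n3 n5 n7 => cond (Nat.beq n3 3) true (cond (Nat.beq n5 5) true (Nat.beq n7 7)))
  (fun _ ih s mask n3 n5 n7 =>
    cond (Nat.testBit mask s) (ih (Nat.succ s) mask n3 n5 n7)
     (trav nx s 14 (nx s) (Nat.lor mask (Nat.shiftLeft 1 s)) 1 (fun mask' len =>
    ih (Nat.succ s) mask' (cond (Nat.beq (Nat.mod len 3) 0) (Nat.add n3 len) n3)
      (cond (Nat.beq (Nat.mod len 5) 0) (Nat.add n5 len) n5)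
      (cond (Nat.beq (Nat.mod len 7) 0) (Nat.add n7 len) n7)))) f

/-- a power of the permutation `nx` of `0, …, 13` is a cycle of length `3`, `5` or `7` -/
def test (nx : ℕ → ℕ) : Bool := cyc nx 14 0 0 0 0 0

/-- (P2) to be proved -/
def P2 : Prop := ∀ (g : Perm (Fin 14)) (nx : ℕ → ℕ), (∀ z : Fin 14, nx z = (g z : ℕ)) → test nx = true →
  ∃ N q : ℕ, q.Prime ∧ q ≤ 7 ∧ (g ^ N).cycleType = {q}

/-- (P3) to be proved: four `5`-subsets of a set with `14` elements are not a base for the alternating group. -/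
def P3 : Prop := ∀ B : Finset (Finset (Fin 14)), B.card ≤ 4 → (∀ b ∈ B, b.card = 5) →
  ∃ g : Perm (Fin 14), Perm.sign g = 1 ∧ g ≠ 1 ∧ ∀ b ∈ B, b.map g.toEmbedding = b

end Pool.Agent.V8H69.TD
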