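import Pool.Agent.V8H69.TD.B4Lem

/-!
# The search through the involutions
-/

set_option autoImplicit false
set_option maxRecDepth 100000

namespace Pool.Agent.V8H69.TD

open Equiv

/-- `yY ^ a` -/
def ya (a z : ℕ) : ℕ := cond (Nat.beq z 13) 13 (Nat.mod (Nat.add z a) 13)

/-- the ratio `v / u` modulo `13` -/
def rat (u v : ℕ) : ℕ := Nat.mod (Nat.mul v (iv u)) 13

/-- words `y^a t` -/
def w1 (c : ℕ) : Bool := anyN 6 (fun a => test (fun z => ya (Nat.succ a) (look c z)))

/-- words `y^a t y^b t` -/
def w2 (c : ℕ) : Bool :=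
  anyN 12 (fun a => anyN (Nat.succ a) (fun b =>
    test (fun z => ya (Nat.succ a) (look c (ya (Nat.succ b) (look c z))))))

/-- the code is the code of one of the six exceptional involutions -/
def w3 (c : ℕ) : Bool :=
  anyL [1, 3, 4, 9, 10, 12] (fun e => allN 14 (fun z => Nat.beq (look c z) (af e 0 (iv z))))

/-- the check of an involution -/
def leaf3 (c : ℕ) : Bool :=
  cond (Nat.beq (Nat.mod (moved c) 4) 0) (cond (w1 c) true (cond (w3 c) true (w2 c))) true

/-- one step: the image of `u` is `v` -/
def step3 (r : ℕ) (ih : ℕ → ℕ → Bool) (c used u v : ℕ) : Bool :=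
  cond (Nat.beq (Nat.land (Nat.shiftRight used v) 1) 1) true
    (cond (Nat.beq u v) (ih (Nat.lor c (Nat.shiftLeft v (Nat.mul 4 u))) (Nat.lor used (Nat.shiftLeft 1 u)))
      (cond (Nat.ble r (rat u v)) (cond (Nat.ble r (rat v u))
        (ih (Nat.lor (Nat.lor c (Nat.shiftLeft v (Nat.mul 4 u))) (Nat.shiftLeft u (Nat.mul 4 v)))
          (Nat.lor (Nat.lor used (Nat.shiftLeft 1 u)) (Nat.shiftLeft 1 v))) true) true))

/-- the search; the points `13 - n, …, 12` are left -/
def dfs3 (r : ℕ) (n : ℕ) : ℕ → ℕ → Bool :=
  Nat.rec (motive := fun _ => ℕ → ℕ → Bool)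
    (fun c _ => leaf3 c)
    (fun n ih c used => cond (Nat.beq (Nat.land (Nat.shiftRight used (Nat.sub 12 n)) 1) 1) (ih c used)
      (allN 13 (fun v => step3 r ih c used (Nat.sub 12 n) v))) n

/-- the code of the partial map `13 ↦ 0 ↦ 13`, `1 ↦ r ↦ 1` -/
def c0 (r : ℕ) : ℕ := Nat.lor (Nat.lor 13 (Nat.shiftLeft r 4)) (Nat.shiftLeft 1 (Nat.mul 4 r))

/-- the points `0`, `13`, `1`, `r` -/
def u0 (r : ℕ) : ℕ := Nat.lor 8195 (Nat.shiftLeft 1 r)

/-- all involutions with `1 ↦ r` -/
def all3 (r : ℕ) : Bool := dfs3 r 11 (c0 r) (u0 r)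

/-- the search where at the point `12 - n` only the image `v` is tried -/
def sub3 (r n v : ℕ) : ℕ → ℕ → Bool := fun c used =>
  cond (Nat.beq (Nat.land (Nat.shiftRight used (Nat.sub 12 n)) 1) 1) (dfs3 r n c used)
    (step3 r (dfs3 r n) c used (Nat.sub 12 n) v)

theorem allN_of {n : ℕ} {f : ℕ → Bool} (h : ∀ k < n, f k = true) : allN n f = true := by
  induction n with
  | zero => rfl
  | succ n ih =>
    show cond (f n) (allN n f) false = true
    rw [h n (Nat.lt_succ_self n), cond_true]
    exact ih (fun k hk => h k (by omega))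

theorem sub3_all {r n c used : ℕ} (h : ∀ v < 13, sub3 r n v c used = true) : dfs3 r (n + 1) c used = true := by
  show cond (Nat.beq (Nat.land (Nat.shiftRight used (Nat.sub 12 n)) 1) 1) (dfs3 r n c used)
      (allN 13 (fun v => step3 r (dfs3 r n) c used (Nat.sub 12 n) v)) = true
  unfold sub3 at h
  cases hb : Nat.beq (Nat.land (Nat.shiftRight used (Nat.sub 12 n)) 1) 1 with
  | true =>
    have := h 0 (by norm_num)
    rw [hb] at this
    exact this
  | false =>
    rw [cond_false]
    apply allN_of
    intro v hv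
    have := h v hv
    rw [hb] at this
    exact this

theorem step3_mono {r n c used u v : ℕ} (h : ∀ v' < 13, step3 r (sub3 r n v') c used u v = true) :
    step3 r (dfs3 r (n + 1)) c used u v = true := by
  unfold step3 at h ⊢
  cases h1 : Nat.beq (Nat.land (Nat.shiftRight used v) 1) 1 with
  | true => rfl
  | false =>
    rw [cond_false]
    cases h2 : Nat.beq u v with
    | true =>
      rw [cond_true]
      apply sub3_all
      intro v' hv'
      have := h v' hv'
      rw [h1, h2] at this
      exact this
    | false =>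
      rw [cond_false]
      cases h3 : Nat.ble r (rat u v) with
      | false => rfl
      | true =>
        rw [cond_true]
        cases h4 : Nat.ble r (rat v u) with
        | false => rfl
        | true =>
          rw [cond_true]
          apply sub3_all
          intro v' hv'
          have := h v' hv'
          rw [h1, h2, h3, h4] at this
          exact this

end Pool.Agent.V8H69.TD
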