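import Pool.Agent.V8H69.TD.B3Def

/-!
# Soundness of the search through the involutions
-/

set_option autoImplicit false
set_option maxRecDepth 100000

namespace Pool.Agent.V8H69.TD

open Equiv

theorem ya_eq : ∀ a : Fin 14, ∀ z : Fin 14, ya a z = ((yY ^ a.val) z : ℕ) := by decide +kernel

/-- the conclusion of (B3) -/
def Concl3 (t : Perm (Fin 14)) : Prop :=
  (∃ e ∈ sq, ∀ z : Fin 14, (t z : ℕ) = af e 0 (iv z)) ∨ ∃ w ∈ Subgroup.closure ({yY, t} : Set (Perm (Fin 14))), QC w

theorem mem_t (t : Perm (Fin 14)) : t ∈ Subgroup.closure ({yY, t} : Set (Perm (Fin 14))) :=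
  Subgroup.subset_closure (by simp)

theorem mem_ya (t : Perm (Fin 14)) (a : ℕ) : yY ^ a ∈ Subgroup.closure ({yY, t} : Set (Perm (Fin 14))) :=
  Subgroup.pow_mem _ (Subgroup.subset_closure (by simp)) a

theorem w1_spec {c : ℕ} {t : Perm (Fin 14)} (h : Codes c t) (hw : w1 c = true) : Concl3 t := by
  obtain ⟨a, ha, hat⟩ := anyN_spec hw
  refine Or.inr ⟨yY ^ (a + 1) * t, Subgroup.mul_mem _ (mem_ya t _) (mem_t t), ?_⟩
  refine Pool.Agent.V8H40.TD.p2 (yY ^ (a + 1) * t) _ ?_ hat
  intro z
  rw [h z]
  exact ya_eq ⟨a + 1, by omega⟩ (t z)

theorem w2_spec {c : ℕ} {t : Perm (Fin 14)} (h : Codes c t) (hw : w2 c = true) : Concl3 t := by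
  obtain ⟨a, ha, hat⟩ := anyN_spec hw
  obtain ⟨b, hb, hbt⟩ := anyN_spec hat
  have hb' : b < a + 1 := hb
  refine Or.inr ⟨yY ^ (a + 1) * (t * (yY ^ (b + 1) * t)), Subgroup.mul_mem _ (mem_ya t _)
    (Subgroup.mul_mem _ (mem_t t) (Subgroup.mul_mem _ (mem_ya t _) (mem_t t))), ?_⟩
  refine Pool.Agent.V8H40.TD.p2 (yY ^ (a + 1) * (t * (yY ^ (b + 1) * t))) _ ?_ hbt
  intro z
  rw [h z]
  have e1 : ya (Nat.succ b) (t z) = ((yY ^ (b + 1)) (t z) : ℕ) := ya_eq ⟨b + 1, by omega⟩ (t z)
  rw [e1, h]
  exact ya_eq ⟨a + 1, by omega⟩ _

theorem w3_spec {c : ℕ} {t : Perm (Fin 14)} (h : Codes c t) (hw : w3 c = true) : Concl3 t := by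
  obtain ⟨e, he, hall⟩ := anyL_spec hw
  refine Or.inl ⟨e, ?_, ?_⟩
  · simp only [sq, Finset.mem_insert, Finset.mem_singleton]
    simpa using he
  · intro z
    have := Nat.eq_of_beq_eq_true (allN_spec hall z.val z.2)
    rw [h z] at this
    exact this

theorem leaf3_spec {c : ℕ} {t : Perm (Fin 14)} (h : Codes c t) (htt : t * t = 1) (hs : Perm.sign t = 1)
    (hl : leaf3 c = true) : Concl3 t := by
  unfold leaf3 at hl
  have h4 : Nat.beq (Nat.mod (moved c) 4) 0 = true := by
    rw [Nat.beq_eq]
    show moved c % 4 = 0
    rw [moved_eq h]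
    by_contra hcon
    have heven : t.support.card % 2 = 0 := by
      have hall : ∀ k ∈ t.cycleType, k = 2 := by
        intro k hk
        have h1 := Perm.dvd_of_mem_cycleType hk
        have h2 := Perm.two_le_of_mem_cycleType hk
        have h3 : orderOf t ∣ 2 := orderOf_dvd_of_pow_eq_one (by rw [pow_two, htt])
        have h4 := Nat.le_of_dvd (by norm_num) (h1.trans h3)
        omega
      have hrep : t.cycleType = Multiset.replicate (Multiset.card t.cycleType) 2 := Multiset.eq_replicate_card.2 hall
      have hsum : t.cycleType.sum = t.support.card := Perm.sum_cycleType t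
      rw [hrep, Multiset.sum_replicate, smul_eq_mul] at hsum
      omega
    have := sign_invol htt (by omega)
    rw [hs] at this
    exact absurd this (by decide)
  rw [h4, cond_true] at hl
  cases e1 : w1 c with
  | true => exact w1_spec h e1
  | false =>
  cases e3 : w3 c with
  | true => exact w3_spec h e3
  | false =>
  cases e2 : w2 c with
  | true => exact w2_spec h e2
  | false =>
    rw [e1, e2, e3] at hl
    exact absurd hl (by decide)

/-- what is known in the search -/
structure Inv3 (t : Perm (Fin 14)) (u c used : ℕ) : Prop where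
  c1 : ∀ z : Fin 14, used.testBit z = true → look c z = t z
  c2 : ∀ z : Fin 14, used.testBit z = false → look c z = 0
  cl : ∀ z : Fin 14, used.testBit z = used.testBit (t z)
  lt : ∀ z : Fin 14, z.val < u → used.testBit z = true
  inf : used.testBit 13 = true

theorem used_testBit (used u v : ℕ) : (Nat.lor used (Nat.shiftLeft 1 u)).testBit v =
    (used.testBit v || decide (u = v)) := by
  show (used ||| (1 <<< u)).testBit v = _
  rw [Nat.testBit_or, Nat.one_shiftLeft, Nat.testBit_two_pow]

theorem dfs3_sound {r : ℕ} {t : Perm (Fin 14)} (htt : t * t = 1) (hs : Perm.sign t = 1)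
    (hr : ∀ z : Fin 14, 0 < z.val → z.val < 13 → t z ≠ z → r ≤ rat z (t z)) :
    ∀ n c used, n ≤ 12 → used.testBit 0 = true → Inv3 t (13 - n) c used → dfs3 r n c used = true → Concl3 t := by
  have ttz : ∀ z, t (t z) = z := by
    intro z
    have := congrArg (fun x : Perm (Fin 14) => x z) htt
    simpa using this
  intro n
  induction n with
  | zero =>
    intro c used _ _ hI h
    refine leaf3_spec (c := c) ?_ htt hs h
    intro z
    apply hI.c1
    by_cases hz : z.val < 13
    · exact hI.lt z (by omega)
    · have : z.val = 13 := by have := z.2; omega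
      rw [this]; exact hI.inf
  | succ n ih =>
    intro c used hn hu0 hI h
    have h' : cond (Nat.beq (Nat.land (Nat.shiftRight used (Nat.sub 12 n)) 1) 1) (dfs3 r n c used)
      (allN 13 (fun v => step3 r (dfs3 r n) c used (Nat.sub 12 n) v)) = true := h
    obtain ⟨m, hm⟩ : ∃ m, m = 12 - n := ⟨_, rfl⟩
    have e1 : Nat.sub 12 n = m := hm.symm
    have e2 : 13 - (n + 1) = m := by omega
    have e3 : 13 - n = m + 1 := by omega
    rw [e1, testBit_iff_beq] at h'
    rw [e2] at hI
    rw [e3] at ih
    obtain ⟨u, hu⟩ : ∃ u : Fin 14, u.val = m := ⟨⟨m, by omega⟩, rfl⟩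
    cases hb : used.testBit m with
    | true =>
      rw [hb, cond_true] at h'
      refine ih c used (by omega) hu0 ⟨hI.c1, hI.c2, hI.cl, ?_, hI.inf⟩ h'
      intro z hz
      rcases Nat.lt_succ_iff_lt_or_eq.1 hz with h1 | h1
      · exact hI.lt z h1
      · rw [h1]; exact hb
    | false =>
      rw [hb, cond_false] at h'
      have hbu : used.testBit u.val = false := by rw [hu]; exact hb
      have hbt : used.testBit (t u).val = false := by rw [← hI.cl u]; exact hbu
      have ht13 : (t u).val ≠ 13 := by
        intro h0; rw [h0, hI.inf] at hbt; exact Bool.noConfusion hbt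
      have ht0 : (t u).val ≠ 0 := by
        intro h0; rw [h0, hu0] at hbt; exact Bool.noConfusion hbt
      have hu0' : u.val ≠ 0 := by
        intro h0; rw [h0, hu0] at hbu; exact Bool.noConfusion hbu
      have hu13 : u.val ≠ 13 := by
        intro h0; rw [h0, hI.inf] at hbu; exact Bool.noConfusion hbu
      have htlt : (t u).val < 13 := by have := (t u).2; omega
      have hult : u.val < 13 := by have := u.2; omega
      have hstep := allN_spec h' (t u).val htlt
      unfold step3 at hstep
      rw [testBit_iff_beq, hbt, cond_false] at hstep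
      have hc16 : (t u).val < 16 := by have := (t u).2; omega
      have hu16 : u.val < 16 := by have := u.2; omega
      rw [← hu] at hstep
      by_cases heq : u = t u
      · have hbeq : Nat.beq u.val (t u).val = true := by rw [← heq]; exact Nat.beq_refl _
        rw [hbeq, cond_true] at hstep
        refine ih _ _ (by omega) ?_ ⟨?_, ?_, ?_, ?_, ?_⟩ hstep
        · rw [used_testBit, hu0]; rfl
        · intro z hz
          rw [used_testBit] at hz
          rw [look_lor _ _ _ _ hc16]
          by_cases hzu : z = u
          · rw [if_pos (by rw [hzu]), hI.c2 u hbu, Nat.zero_or, hzu]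
          · rw [if_neg (fun h => hzu (Fin.ext h))]
            apply hI.c1
            have : ¬ (u.val = z.val) := fun h => hzu (Fin.ext h.symm)
            simpa [this] using hz
        · intro z hz
          rw [used_testBit, Bool.or_eq_false_iff] at hz
          rw [look_lor _ _ _ _ hc16]
          have : ¬ (z.val = u.val) := fun h => by simpa [h] using hz.2
          rw [if_neg this]
          exact hI.c2 z hz.1
        · intro z
          rw [used_testBit, used_testBit, ← hI.cl z]
          congr 1
          rw [decide_eq_decide]
          constructor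
          · intro h1
            have : u = z := Fin.ext h1
            rw [← this, ← heq]
          · intro h1
            have : u = t z := Fin.ext h1
            have h2 : t u = z := by rw [this, ttz]
            rw [← h2, ← heq]
        · intro z hz
          rw [used_testBit]
          rcases Nat.lt_succ_iff_lt_or_eq.1 hz with h1 | h1
          · rw [hI.lt z h1]; rfl
          · have : u.val = z.val := by rw [h1, hu]
            simp [this]
        · rw [used_testBit, hI.inf]; rfl
      · have hne : u.val ≠ (t u).val := fun h => heq (Fin.ext h)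
        have hbeq : Nat.beq u.val (t u).val = false := beq_false_of_ne' hne
        have hr1 : Nat.ble r (rat u.val (t u).val) = true :=
          Nat.ble_eq_true_of_le (hr u (by omega) hult (fun h => heq h.symm))
        have hr2 : Nat.ble r (rat (t u).val u.val) = true := by
          have := hr (t u) (by omega) htlt (by rw [ttz]; exact heq)
          rw [ttz] at this
          exact Nat.ble_eq_true_of_le this
        rw [hbeq, cond_false, hr1, cond_true, hr2, cond_true] at hstep
        refine ih _ _ (by omega) ?_ ⟨?_, ?_, ?_, ?_, ?_⟩ hstep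
        · rw [used_testBit, used_testBit, hu0]; rfl
        · intro z hz
          rw [used_testBit, used_testBit] at hz
          rw [look_lor _ _ _ _ hu16]
          by_cases hzv : z = t u
          · rw [if_pos (by rw [hzv]), look_lor _ _ _ _ hc16, if_neg (fun h => hne h.symm), hI.c2 (t u) hbt,
              Nat.zero_or, hzv, ttz]
          · rw [if_neg (fun h => hzv (Fin.ext h)), look_lor _ _ _ _ hc16]
            by_cases hzu : z = u
            · rw [if_pos (by rw [hzu]), hI.c2 u hbu, Nat.zero_or, hzu]
            · rw [if_neg (fun h => hzu (Fin.ext h))]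
              apply hI.c1
              have h1 : ¬ (u.val = z.val) := fun h => hzu (Fin.ext h.symm)
              have h2 : ¬ ((t u).val = z.val) := fun h => hzv (Fin.ext h.symm)
              simpa [h1, h2] using hz
        · intro z hz
          rw [used_testBit, used_testBit, Bool.or_eq_false_iff, Bool.or_eq_false_iff] at hz
          have h1 : ¬ (z.val = u.val) := fun h => by simpa [h] using hz.1.2
          have h2 : ¬ (z.val = (t u).val) := fun h => by simpa [h] using hz.2
          rw [look_lor _ _ _ _ hu16, if_neg h2, look_lor _ _ _ _ hc16, if_neg h1]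
          exact hI.c2 z hz.1.1
        · intro z
          rw [used_testBit, used_testBit, used_testBit, used_testBit, ← hI.cl z, Bool.or_assoc, Bool.or_assoc]
          congr 1
          have e4 : decide (u.val = z.val) = decide ((t u).val = (t z).val) := by
            rw [decide_eq_decide]
            constructor
            · intro h1; rw [Fin.ext h1]
            · intro h1; rw [t.injective (Fin.ext h1)]
          have e5 : decide ((t u).val = z.val) = decide (u.val = (t z).val) := by
            rw [decide_eq_decide]
            constructor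
            · intro h1; rw [← Fin.ext h1, ttz]
            · intro h1; rw [Fin.ext h1, ttz]
          rw [e4, e5, Bool.or_comm]
        · intro z hz
          rw [used_testBit, used_testBit]
          rcases Nat.lt_succ_iff_lt_or_eq.1 hz with h1 | h1
          · rw [hI.lt z h1]; rfl
          · have : u.val = z.val := by rw [h1, hu]
            simp [this]
        · rw [used_testBit, used_testBit, hI.inf]; rfl

end Pool.Agent.V8H69.TD
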