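import Pool.Agent.V8H69.TD.B4Lem

/-!
# The relabellings and the elements of prime order
-/

set_option autoImplicit false
set_option maxRecDepth 100000

namespace Pool.Agent.V8H69.TD

open Equiv

/-- the map `z ↦ 1 / (e z + 1)` -/
def hh (e z : ℕ) : ℕ := af 1 0 (iv (af e 1 z))

/-- iterates of `hh` -/
def it (e j z : ℕ) : ℕ := Nat.rec (motive := fun _ => ℕ) z (fun _ ih => hh e ih) j

/-- the check of the relabellings -/
def chkLam (e w : ℕ) : Bool :=
  cond (anyN 7 (fun j => Nat.beq (it e j 13) w)) true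
  (cond (Nat.beq (it e 7 13) 13) (cond (Nat.beq (it e 7 w) w)
    (anyL LAM (fun lc => allN 7 (fun j => cond (Nat.beq (look lc (it e j 13)) j)
      (Nat.beq (look lc (it e j w)) (Nat.add 7 j)) false))) true) true)

theorem chkLam_all : ∀ e ∈ sq, ∀ w < 14, chkLam e w = true := by decide +kernel

theorem sS_pow_zero : ∀ j : Fin 7, ((sS ^ j.val) 0 : Fin 14).val = j.val := by decide +kernel
theorem sS_pow_seven : ∀ j : Fin 7, ((sS ^ j.val) 7 : Fin 14).val = 7 + j.val := by decide +kernel
theorem sS_seven : sS ^ 7 = 1 := by decide +kernel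

theorem lam (l : Perm (Fin 14)) (h13 : l 13 = 0) (h0 : l 0 = 1) (h1 : l 1 = 2) (hK : K0 (l⁻¹ * sS * l)) :
    ∃ lc ∈ LAM, Codes lc l := by
  obtain ⟨e, he, q, hq, hK⟩ := hK
  have e13 : (l⁻¹ * sS * l) 13 = 0 := by
    rw [Perm.mul_apply, Perm.mul_apply, h13]
    have : sS 0 = 1 := by decide
    rw [this, Perm.inv_eq_iff_eq, h0]
  have e0 : (l⁻¹ * sS * l) 0 = 1 := by
    rw [Perm.mul_apply, Perm.mul_apply, h0]
    have : sS 1 = 2 := by decide
    rw [this, Perm.inv_eq_iff_eq, h1]
  have hH : ∀ z : Fin 14, ((l⁻¹ * sS * l) z : ℕ) = hh e z := by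
    rcases hK with hK | ⟨p, hp, hK⟩
    · have := hK 13
      rw [e13] at this
      have h2 : af e q ((13 : Fin 14) : ℕ) = 13 := rfl
      rw [h2] at this
      exact absurd this (by decide)
    · have h2 := hK 13
      rw [e13] at h2
      have h3 : af 1 p (iv (af e q ((13 : Fin 14) : ℕ))) = p % 13 := by
        have i1 : af e q ((13 : Fin 14) : ℕ) = 13 := rfl
        have i2 : iv 13 = 0 := by decide +kernel
        rw [i1, i2]
        show (1 * 0 + p) % 13 = p % 13
        simp
      rw [h3, Nat.mod_eq_of_lt hp] at h2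
      have hp0 : p = 0 := h2.symm
      subst hp0
      have h4 := hK 0
      rw [e0] at h4
      have h5 : q = 1 := by
        have h6 : af e q ((0 : Fin 14) : ℕ) = q := by
          show (e * 0 + q) % 13 = q
          rw [mul_zero, zero_add, Nat.mod_eq_of_lt hq]
        rw [h6] at h4
        have h7 : ∀ q < 13, ((1 : Fin 14) : ℕ) = af 1 0 (iv q) → q = 1 := by decide
        exact h7 q hq h4
      subst h5
      exact hK
  have hit : ∀ j, ∀ z : Fin 14, (((l⁻¹ * sS * l) ^ j) z : ℕ) = it e j z := by
    intro j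
    induction j with
    | zero => intro z; rfl
    | succ j ih =>
      intro z
      rw [pow_succ', Perm.mul_apply, hH, ih]
      rfl
  have hconj : ∀ j, ∀ z : Fin 14, l (((l⁻¹ * sS * l) ^ j) z) = (sS ^ j) (l z) := by
    intro j z
    have : (l⁻¹ * sS * l) ^ j = l⁻¹ * sS ^ j * l := by
      have : l⁻¹ * sS * l = l⁻¹ * sS * (l⁻¹)⁻¹ := by group
      rw [this, conj_pow]; group
    rw [this, Perm.mul_apply, Perm.mul_apply, ai]
  obtain ⟨w, hw⟩ : ∃ w : Fin 14, w = l⁻¹ 7 := ⟨_, rfl⟩
  have hlw : l w = 7 := by rw [hw, ai]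
  have hchk := chkLam_all e he w.val w.2
  unfold chkLam at hchk
  have c1 : anyN 7 (fun j => Nat.beq (it e j 13) w) = false := by
    rw [Bool.eq_false_iff]
    intro h
    obtain ⟨j, hj, hj'⟩ := anyN_spec h
    have h2 := Nat.eq_of_beq_eq_true hj'
    have h3 := hit j 13
    rw [show ((13 : Fin 14) : ℕ) = 13 from rfl, h2] at h3
    have h4 := hconj j 13
    rw [Fin.ext h3, hlw, h13] at h4
    have h5 := sS_pow_zero ⟨j, hj⟩
    simp only at h5
    rw [← h4] at h5
    have : (7 : Fin 14).val = 7 := rfl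
    omega
  have c7 : (l⁻¹ * sS * l) ^ 7 = 1 := by
    have : l⁻¹ * sS * l = l⁻¹ * sS * (l⁻¹)⁻¹ := by group
    rw [this, conj_pow, sS_seven]; group
  have c2 : ∀ z : Fin 14, Nat.beq (it e 7 z) z = true := by
    intro z
    rw [← hit 7 z, c7]
    exact Nat.beq_refl _
  rw [c1, cond_false] at hchk
  have c2' : Nat.beq (it e 7 13) 13 = true := c2 13
  rw [c2', cond_true, c2 w, cond_true] at hchk
  obtain ⟨lc, hlc, hall⟩ := anyL_spec hchk
  refine ⟨lc, hlc, ?_⟩
  have d1 : ∀ j < 7, look lc (it e j 13) = j ∧ look lc (it e j w) = 7 + j := by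
    intro j hj
    have := allN_spec hall j hj
    cases h : Nat.beq (look lc (it e j 13)) j with
    | false => rw [h] at this; simp at this
    | true =>
      rw [h, cond_true] at this
      exact ⟨Nat.eq_of_beq_eq_true h, Nat.eq_of_beq_eq_true this⟩
  intro z
  by_cases hz : (l z).val < 7
  · have h2 : z = ((l⁻¹ * sS * l) ^ (l z).val) 13 := by
      apply l.injective
      rw [hconj, h13]
      apply Fin.ext
      exact (sS_pow_zero ⟨(l z).val, hz⟩).symm
    have h3 := (d1 (l z).val hz).1
    have h4 := hit (l z).val 13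
    rw [← h2] at h4
    rw [h4]
    exact h3
  · obtain ⟨j, hj⟩ : ∃ j, (l z).val = 7 + j := ⟨(l z).val - 7, by omega⟩
    have hj7 : j < 7 := by have := (l z).2; omega
    have h2 : z = ((l⁻¹ * sS * l) ^ j) w := by
      apply l.injective
      rw [hconj, hlw]
      apply Fin.ext
      rw [hj]
      exact (sS_pow_seven ⟨j, hj7⟩).symm
    have h3 := (d1 j hj7).2
    have h4 := hit j w
    rw [← h2] at h4
    rw [h4, hj]
    exact h3

/-- the code of the power `k + 1` -/
def pw (c k : ℕ) : ℕ := Nat.rec (motive := fun _ => ℕ) c (fun _ ih => cd (fun z => look c (look ih z))) k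

/-- a power is in the list `RR`, or the permutation is the identity -/
def covC (c : ℕ) : Bool :=
  cond (allN 14 (fun z => Nat.beq (look c z) z)) true
    (anyN 12 (fun k => anyL RR (fun r => Nat.beq r (pw c k))))

/-- the check of all elements `z ↦ e z + q` and `z ↦ p + 1 / (e z + q)`, for fixed `e` -/
def covE (e : ℕ) : Bool :=
  allN 13 (fun q => cond (covC (cd (af e q))) (allN 13 (fun p => covC (cd (fun z => af 1 p (iv (af e q z)))))) false)

theorem covE_1 : covE 1 = true := by decide +kernel
theorem covE_3 : covE 3 = true := by decide +kernel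
theorem covE_4 : covE 4 = true := by decide +kernel
theorem covE_9 : covE 9 = true := by decide +kernel
theorem covE_10 : covE 10 = true := by decide +kernel
theorem covE_12 : covE 12 = true := by decide +kernel

theorem covE_all : ∀ e ∈ sq, covE e = true := by
  intro e he
  simp only [sq, Finset.mem_insert, Finset.mem_singleton] at he
  rcases he with rfl | rfl | rfl | rfl | rfl | rfl
  · exact covE_1
  · exact covE_3
  · exact covE_4
  · exact covE_9
  · exact covE_10
  · exact covE_12

theorem pw_spec {c : ℕ} {x : Perm (Fin 14)} (h : Codes c x) (k : ℕ) : Codes (pw c k) (x ^ (k + 1)) := by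
  induction k with
  | zero => rw [zero_add, pow_one]; exact h
  | succ k ih =>
    rw [pow_succ']
    show Codes (cd (fun z => look c (look (pw c k) z))) _
    apply cd_spec
    intro z
    show look c (look (pw c k) z) = _
    rw [ih z, h]
    rfl

theorem covC_spec {c : ℕ} {x : Perm (Fin 14)} (h : Codes c x) (hx : x ≠ 1) (hc : covC c = true) :
    ∃ k : ℕ, ∃ rc ∈ RR, Codes rc (x ^ k) := by
  unfold covC at hc
  cases h1 : allN 14 (fun z => Nat.beq (look c z) z) with
  | true =>
    exfalso
    apply hx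
    ext z
    have := Nat.eq_of_beq_eq_true (allN_spec h1 z.val z.2)
    rw [h z] at this
    simpa using this
  | false =>
    rw [h1, cond_false] at hc
    obtain ⟨k, _, hk⟩ := anyN_spec hc
    obtain ⟨r, hr, hr'⟩ := anyL_spec hk
    have := Nat.eq_of_beq_eq_true hr'
    exact ⟨k + 1, r, hr, by rw [this]; exact pw_spec h k⟩

theorem cov (x : Perm (Fin 14)) (hK : K0 x) (hx : x ≠ 1) : ∃ k : ℕ, ∃ rc ∈ RR, Codes rc (x ^ k) := by
  obtain ⟨e, he, q, hq, hK⟩ := hK
  have h1 := allN_spec (covE_all e he) q hq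
  cases h2 : covC (cd (af e q)) with
  | false => rw [h2] at h1; simp at h1
  | true =>
    rw [h2, cond_true] at h1
    rcases hK with hK | ⟨p, hp, hK⟩
    · exact covC_spec (cd_spec (fun z => (hK z).symm)) hx h2
    · exact covC_spec (cd_spec (f := fun z => af 1 p (iv (af e q z))) (fun z => (hK z).symm)) hx
        (allN_spec h1 p hp)

end Pool.Agent.V8H69.TD
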