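import Pool.Agent.V8H69.TD.B4Def
import Pool.Agent.V8H40.TD.P2

/-!
# Soundness of the check
-/

set_option autoImplicit false
set_option maxRecDepth 100000

namespace Pool.Agent.V8H69.TD

open Equiv

theorem codes_g (i : Fin 4) : Codes (gc i) (g i) := by
  have : ∀ i : Fin 4, ∀ z : Fin 14, look (gc i) z = (fn (gc i) z : ℕ) := by decide +kernel
  intro z
  exact this i z

theorem look_lt (c z : ℕ) : look c z < 16 := by
  show (c >>> (4 * z)) &&& 15 < 16
  exact lt_of_le_of_lt Nat.and_le_right (by norm_num)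

theorem look_lor (a v k m : ℕ) (hv : v < 16) :
    look (Nat.lor a (Nat.shiftLeft v (Nat.mul 4 k))) m = if m = k then (look a k ||| v) else look a m := by
  show ((a ||| (v <<< (4 * k))) >>> (4 * m)) &&& 15 = if m = k then (((a >>> (4 * k)) &&& 15) ||| v)
    else (a >>> (4 * m)) &&& 15
  have h15 : ∀ i, (15 : ℕ).testBit i = decide (i < 4) := by
    intro i
    have : (15 : ℕ) = 2 ^ 4 - 1 := by norm_num
    rw [this, Nat.testBit_two_pow_sub_one]
  have hv' : ∀ i, 4 ≤ i → v.testBit i = false := by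
    intro i hi
    apply Nat.testBit_lt_two_pow
    calc v < 2 ^ 4 := by simpa using hv
      _ ≤ 2 ^ i := Nat.pow_le_pow_right (by norm_num) hi
  apply Nat.eq_of_testBit_eq
  intro i
  by_cases hmk : m = k
  · subst hmk
    simp only [if_true, Nat.testBit_and, Nat.testBit_shiftRight, Nat.testBit_or, Nat.testBit_shiftLeft, h15]
    by_cases hi : i < 4
    · simp [hi]
    · simp [hi, hv' i (by omega)]
  · simp only [if_neg hmk, Nat.testBit_and, Nat.testBit_shiftRight, Nat.testBit_or, Nat.testBit_shiftLeft, h15]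
    by_cases hi : i < 4
    · rcases Nat.lt_or_gt_of_ne hmk with h | h
      · have : ¬ (4 * k ≤ 4 * m + i) := by omega
        simp [this]
      · have : v.testBit (4 * m + i - 4 * k) = false := hv' _ (by omega)
        simp [this]
    · simp [hi]

theorem look_zero (m : ℕ) : look 0 m = 0 := by
  show (0 >>> (4 * m)) &&& 15 = 0
  simp

theorem cd_spec {f : ℕ → ℕ} {x : Perm (Fin 14)} (h : ∀ z : Fin 14, f z = x z) : Codes (cd f) x := by
  have key : ∀ n, n ≤ 14 → ∀ m, look (Nat.rec (motive := fun _ => ℕ) 0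
      (fun z ih => Nat.lor ih (Nat.shiftLeft (f z) (Nat.mul 4 z))) n) m = if m < n then f m else 0 := by
    intro n
    induction n with
    | zero => intro _ m; simp [look_zero]
    | succ n ih =>
      intro hn m
      have hf : f n < 16 := by
        have h1 := h ⟨n, by omega⟩
        have h2 := (x ⟨n, by omega⟩).2
        simp only at h1
        omega
      show look (Nat.lor _ (Nat.shiftLeft (f n) (Nat.mul 4 n))) m = _
      rw [look_lor _ _ _ _ hf, ih (by omega), ih (by omega)]
      by_cases hm : m = n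
      · subst hm; simp
      · simp only [if_neg hm]
        by_cases hm2 : m < n
        · rw [if_pos hm2, if_pos (by omega)]
        · rw [if_neg hm2, if_neg (by omega)]
  intro z
  unfold cd
  rw [key 14 le_rfl, if_pos z.2, h]

theorem conjc_spec {r h : Perm (Fin 14)} {rc hc : ℕ} (hr : Codes rc r) (hh : Codes hc h) :
    Codes (conjc rc hc) (r * h * r⁻¹) := by
  have key : ∀ n, n ≤ 14 → ∀ m : Fin 14, look (Nat.rec (motive := fun _ => ℕ) 0
    (fun u ih => Nat.lor ih (Nat.shiftLeft (look rc (look hc u)) (Nat.mul 4 (look rc u)))) n) (r m) =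
      if m.val < n then (r (h m) : ℕ) else 0 := by
    intro n
    induction n with
    | zero => intro _ m; simp [look_zero]
    | succ n ih =>
      intro hn m
      show look (Nat.lor _ (Nat.shiftLeft (look rc (look hc n)) (Nat.mul 4 (look rc n)))) (r m) = _
      rw [look_lor _ _ _ _ (look_lt _ _)]
      have e1 : look hc n = h ⟨n, by omega⟩ := hh ⟨n, by omega⟩
      have e2 : look rc n = r ⟨n, by omega⟩ := hr ⟨n, by omega⟩
      rw [e1, e2, hr, ih (by omega), ih (by omega)]
      by_cases hm : m = ⟨n, by omega⟩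
      · subst hm; simp
      · have h1 : ¬ ((r m : ℕ) = r ⟨n, by omega⟩) := fun h0 => hm (r.injective (Fin.ext h0))
        have h2 : m.val ≠ n := fun h0 => hm (Fin.ext h0)
        rw [if_neg h1]
        by_cases hm2 : m.val < n
        · rw [if_pos hm2, if_pos (by omega)]
        · rw [if_neg hm2, if_neg (by omega)]
  intro z
  have := key 14 le_rfl (r⁻¹ z)
  rw [if_pos (r⁻¹ z).2, ai] at this
  exact this

theorem sSp_eq : ∀ a : Fin 7, ∀ z : Fin 14, sSp a z = ((sS ^ a.val) z : ℕ) := by decide +kernel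

theorem kill_spec {yc : ℕ} {y : Perm (Fin 14)} (hy : Codes yc y) (h : kill yc = true) : ∀ c < 8, ¬ Pres c y := by
  intro c hc hp
  have key : ∀ n, n ≤ 49 → ∀ dead : ℕ, dead.testBit c = false →
      (Nat.rec (motive := fun _ => ℕ → Bool) (fun dead => Nat.beq dead 255)
    (fun k ih dead => cond (Nat.beq dead 255) true
      (ih (Nat.lor dead (Nat.xor (Nat.shiftLeft 1 (colN (Nat.div k 7) (Nat.add 7 (Nat.mod k 7))))
        (Nat.shiftLeft 1 (colN (look yc (Nat.div k 7)) (look yc (Nat.add 7 (Nat.mod k 7)))))))))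
          n dead : Bool) = false := by
    have h255 : (255 : ℕ).testBit c = true := by interval_cases c <;> decide
    have hne : ∀ dead : ℕ, dead.testBit c = false → Nat.beq dead 255 = false := by
      intro dead hd
      apply beq_false_of_ne'
      rintro rfl
      rw [h255] at hd
      exact Bool.noConfusion hd
    intro n
    induction n with
    | zero => intro _ dead hd; exact hne dead hd
    | succ k ih =>
      intro hn dead hd
      show cond (Nat.beq dead 255) true _ = false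
      rw [hne dead hd, cond_false]
      apply ih (by omega)
      have hk : k / 7 < 7 := by omega
      have hk2 : k % 7 < 7 := Nat.mod_lt _ (by norm_num)
      obtain ⟨u, hu⟩ : ∃ u : Fin 14, u.val = k / 7 := ⟨⟨k / 7, by omega⟩, rfl⟩
      obtain ⟨v, hv⟩ : ∃ v : Fin 14, v.val = 7 + k % 7 := ⟨⟨7 + k % 7, by omega⟩, rfl⟩
      have huv : u ≠ v := by
        intro h0; rw [h0] at hu; omega
      have h1 := hp u v huv
      have e1 : Nat.div k 7 = u.val := hu.symm
      have e2 : Nat.add 7 (Nat.mod k 7) = v.val := hv.symm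
      rw [e1, e2, hy, hy, colN_eq, colN_eq]
      show (dead ||| ((Nat.shiftLeft 1 (col u v)) ^^^ (Nat.shiftLeft 1 (col (y u) (y v))))).testBit c = false
      rw [Nat.testBit_or, hd, Nat.testBit_xor, one_shift, one_shift]
      have : decide (col u v = c) = decide (col (y u) (y v) = c) := by
        rw [decide_eq_decide]; exact h1.symm
      rw [this]; simp
  have := key 49 le_rfl 0 (by simp)
  unfold kill at h
  rw [this] at h
  exact Bool.noConfusion h

/-- what a check proves -/
def Succ (y : Perm (Fin 14)) : Prop :=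
  (∀ c < 8, ¬ Pres c y) ∧ ∃ w ∈ Subgroup.closure ({y, sS} : Set (Perm (Fin 14))), QC w

theorem mem_y (y : Perm (Fin 14)) : y ∈ Subgroup.closure ({y, sS} : Set (Perm (Fin 14))) :=
  Subgroup.subset_closure (by simp)

theorem mem_s (y : Perm (Fin 14)) (a : ℕ) : sS ^ a ∈ Subgroup.closure ({y, sS} : Set (Perm (Fin 14))) :=
  Subgroup.pow_mem _ (Subgroup.subset_closure (by simp)) a

theorem g1_spec {yc : ℕ} {y : Perm (Fin 14)} (hy : Codes yc y) (h : g1 yc = true) : Succ y := by
  unfold g1 at h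
  cases h1 : anyN 7 (fun a => test (fun z => sSp a (look yc z))) with
  | false => rw [h1] at h; simp at h
  | true =>
    rw [h1, cond_true] at h
    refine ⟨kill_spec hy h, ?_⟩
    obtain ⟨a, ha, hat⟩ := anyN_spec h1
    refine ⟨sS ^ a * y, Subgroup.mul_mem _ (mem_s y a) (mem_y y), ?_⟩
    refine Pool.Agent.V8H40.TD.p2 (sS ^ a * y) _ ?_ hat
    intro z
    rw [hy z]
    exact sSp_eq ⟨a, ha⟩ (y z)

theorem g2_spec {yc : ℕ} {y : Perm (Fin 14)} (hy : Codes yc y) (h : g2 yc = true) : Succ y := by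
  unfold g2 at h
  cases h1 : anyN 7 (fun a => anyN 7 (fun b => test (fun z => sSp a (look yc (sSp b (look yc z)))))) with
  | false => rw [h1] at h; simp at h
  | true =>
    rw [h1, cond_true] at h
    refine ⟨kill_spec hy h, ?_⟩
    obtain ⟨a, ha, hat⟩ := anyN_spec h1
    obtain ⟨b, hb, hbt⟩ := anyN_spec hat
    refine ⟨sS ^ a * (y * (sS ^ b * y)), Subgroup.mul_mem _ (mem_s y a) (Subgroup.mul_mem _ (mem_y y)
      (Subgroup.mul_mem _ (mem_s y b) (mem_y y))), ?_⟩
    refine Pool.Agent.V8H40.TD.p2 (sS ^ a * (y * (sS ^ b * y))) _ ?_ hbt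
    intro z
    rw [hy z]
    have e1 : sSp b (y z) = ((sS ^ b) (y z) : ℕ) := sSp_eq ⟨b, hb⟩ (y z)
    rw [e1, hy]
    exact sSp_eq ⟨a, ha⟩ _

theorem chk3_spec {c1 c2 c3 : ℕ} {y1 y2 y3 : Perm (Fin 14)} (h1 : Codes c1 y1) (h2 : Codes c2 y2)
    (h3 : Codes c3 y3) (h : chk3 c1 c2 c3 = true) : Succ y1 ∨ Succ y2 ∨ Succ y3 := by
  unfold chk3 at h
  cases e1 : g1 c1 with
  | true => exact Or.inl (g1_spec h1 e1)
  | false =>
  cases e2 : g1 c2 with
  | true => exact Or.inr (Or.inl (g1_spec h2 e2))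
  | false =>
  cases e3 : g1 c3 with
  | true => exact Or.inr (Or.inr (g1_spec h3 e3))
  | false =>
  cases e4 : g2 c1 with
  | true => exact Or.inl (g2_spec h1 e4)
  | false =>
  cases e5 : g2 c2 with
  | true => exact Or.inr (Or.inl (g2_spec h2 e5))
  | false =>
  cases e6 : g2 c3 with
  | true => exact Or.inr (Or.inr (g2_spec h3 e6))
  | false =>
    rw [e1, e2, e3, e4, e5, e6] at h
    exact absurd h (by decide)

theorem rho_spec {l : Perm (Fin 14)} {lc : ℕ} (hl : Codes lc l) (i j : Fin 4) :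
    Codes (rho i j lc) ((g j)⁻¹ * g i * l) := by
  apply cd_spec
  intro z
  rw [hl z, codes_g i (l z), codes_gi j]
  rfl

theorem chkB_spec {i : Fin 4} {l : Perm (Fin 14)} {lc : ℕ} (hl : Codes lc l) (h : chkB i lc = true)
    {hc : ℕ} (hR : hc ∈ RR) {h' : Perm (Fin 14)} (hh : Codes hc h') :
    ∃ j : Fin 4, Succ (((g j)⁻¹ * g i * l) * h' * ((g j)⁻¹ * g i * l)⁻¹) := by
  have h0 : allL RR (fun h => chk3 (conjc (rho i (o1 i) lc) h) (conjc (rho i (o2 i) lc) h)
    (conjc (rho i (o3 i) lc) h)) = true := h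
  have h1 := allL_spec h0 hc hR
  have o1' : ∃ j : Fin 4, j.val = o1 i := by
    have : ∀ i : Fin 4, ∃ j : Fin 4, j.val = o1 i := by decide
    exact this i
  have o2' : ∃ j : Fin 4, j.val = o2 i := by
    have : ∀ i : Fin 4, ∃ j : Fin 4, j.val = o2 i := by decide
    exact this i
  have o3' : ∃ j : Fin 4, j.val = o3 i := by
    have : ∀ i : Fin 4, ∃ j : Fin 4, j.val = o3 i := by decide
    exact this i
  obtain ⟨j1, hj1⟩ := o1'
  obtain ⟨j2, hj2⟩ := o2'
  obtain ⟨j3, hj3⟩ := o3'
  rw [← hj1, ← hj2, ← hj3] at h1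
  rcases chk3_spec (conjc_spec (rho_spec hl i j1) hh) (conjc_spec (rho_spec hl i j2) hh)
    (conjc_spec (rho_spec hl i j3) hh) h1 with h2 | h2 | h2
  · exact ⟨j1, h2⟩
  · exact ⟨j2, h2⟩
  · exact ⟨j3, h2⟩

theorem pres_pow {c : ℕ} {y : Perm (Fin 14)} (h : Pres c y) (k : ℕ) : Pres c (y ^ k) := by
  induction k with
  | zero => intro u v _; simp
  | succ k ih =>
    intro u v huv
    rw [pow_succ, Perm.mul_apply, Perm.mul_apply, ih _ _ (fun h => huv (y.injective h))]
    exact h u v huv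

theorem succ_pow {y : Perm (Fin 14)} {k : ℕ} (h : Succ (y ^ k)) : Succ y := by
  obtain ⟨h1, w, hw, hq⟩ := h
  refine ⟨fun c hc hp => h1 c hc (pres_pow hp k), w, ?_, hq⟩
  refine (Subgroup.closure_le _).2 ?_ hw
  rintro z (rfl | rfl)
  · exact Subgroup.pow_mem _ (mem_y y) k
  · simpa using mem_s y 1

theorem qc_conj {w : Perm (Fin 14)} (h : QC w) (a : Perm (Fin 14)) : QC (a * w * a⁻¹) := by
  obtain ⟨N, q, hq, hq7, hc⟩ := h
  refine ⟨N, q, hq, hq7, ?_⟩
  rw [conj_pow, Perm.cycleType_conj, hc]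

theorem succ_conj {x : Perm (Fin 14)} {j : Fin 4} (h : Succ ((g j)⁻¹ * x * g j)) :
    (∀ c < 8, ¬ Pres c ((g j)⁻¹ * x * g j)) ∧ ∃ w ∈ Subgroup.closure ({x, s j} : Set (Perm (Fin 14))), QC w := by
  obtain ⟨h1, w, hw, hq⟩ := h
  refine ⟨h1, g j * w * (g j)⁻¹, ?_, qc_conj hq _⟩
  have h2 : g j * w * (g j)⁻¹ = (MulAut.conj (g j)).toMonoidHom w := by simp
  rw [h2]
  have h3 : Subgroup.closure ({x, s j} : Set (Perm (Fin 14))) =
      (Subgroup.closure ({(g j)⁻¹ * x * g j, sS} : Set (Perm (Fin 14)))).map (MulAut.conj (g j)).toMonoidHom := by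
    rw [MonoidHom.map_closure, Set.image_pair]
    congr 2
    · simp only [MulEquiv.toMonoidHom_eq_coe, MonoidHom.coe_coe, MulAut.conj_apply]; group
  rw [h3]
  exact Subgroup.mem_map_of_mem _ hw

end Pool.Agent.V8H69.TD
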