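import Pool.Agent.V8H69.TD.Defs

/-!
# Statements of the parts of the proof
-/

set_option autoImplicit false

namespace Pool.Agent.V8H69.TD

open Equiv

/-- the map coded by `c` -/
def fn (c : ℕ) (z : Fin 14) : Fin 14 := ⟨look c z % 14, Nat.mod_lt _ (by norm_num)⟩

/-- the four permutations `g i`; `s i = g i * sS * (g i)⁻¹` -/
def gc : ℕ → ℕ
  | 0 => 32610797969113186
  | 1 => 31745422689931621
  | 2 => 31992661730440036
  | _ => 5436141948610951

/-- codes of the inverses of the `g i` -/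
def gic : ℕ → ℕ
  | 0 => 51127856848617586
  | 1 => 21257110914954796
  | 2 => 23709494296979911
  | _ => 28502781790308826

/-- the permutation `g i` -/
def g (i : Fin 4) : Perm (Fin 14) where
  toFun := fn (gc i)
  invFun := fn (gic i)
  left_inv := by
    have : ∀ i : Fin 4, ∀ z : Fin 14, fn (gic i) (fn (gc i) z) = z := by decide +kernel
    exact this i
  right_inv := by
    have : ∀ i : Fin 4, ∀ z : Fin 14, fn (gc i) (fn (gic i) z) = z := by decide +kernel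
    exact this i

/-- the four elements of the total dominating set -/
def s (i : Fin 4) : Perm (Fin 14) := g i * sS * (g i)⁻¹

/-- The points `0, …, 12` are the elements of the field with `13` elements and `13` is infinity; the map
`z ↦ z + 1`. -/
def yY : Perm (Fin 14) where
  toFun z := if z.val = 13 then 13 else ⟨(z.val + 1) % 13, by omega⟩
  invFun z := if z.val = 13 then 13 else ⟨(z.val + 12) % 13, by omega⟩
  left_inv := by decide
  right_inv := by decide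

/-- the map `z ↦ 1 / z` -/
def iv (z : ℕ) : ℕ := look 3487879247075101 z

/-- the map `z ↦ e * z + q` -/
def af (e q z : ℕ) : ℕ := cond (Nat.beq z 13) 13 (Nat.mod (Nat.add (Nat.mul e z) q) 13)

/-- the nonzero squares modulo `13` -/
def sq : Finset ℕ := {1, 3, 4, 9, 10, 12}

/-- The elements of `PSL(2, 13)`: the maps `z ↦ e * z + q` and `z ↦ p + 1 / (e * z + q)`, with a square `e ≠ 0`. -/
def K0 (h : Perm (Fin 14)) : Prop := ∃ e ∈ sq, ∃ q < 13, (∀ z : Fin 14, (h z : ℕ) = af e q z) ∨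
  ∃ p < 13, ∀ z : Fin 14, (h z : ℕ) = af 1 p (iv (af e q z))

/-- a power of `w` is a cycle of length `3`, `5` or `7` (or `2`) -/
def QC (w : Perm (Fin 14)) : Prop := ∃ N q : ℕ, q.Prime ∧ q ≤ 7 ∧ (w ^ N).cycleType = {q}

/-- (B3) the involutions swapping `13` and `0` -/
def B3 : Prop := ∀ t : Perm (Fin 14), t * t = 1 → Perm.sign t = 1 → t 13 = 0 →
  (∃ e ∈ sq, ∀ z : Fin 14, (t z : ℕ) = af e 0 (iv z)) ∨ ∃ w ∈ Subgroup.closure ({yY, t} : Set (Perm (Fin 14))), QC w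

/-- (KM) a doubly transitive group of even permutations which contains `yY` and no element a power of which
is a short prime cycle is contained in `PSL(2, 13)` -/
def KM : Prop := ∀ H : Subgroup (Perm (Fin 14)), (∀ h ∈ H, Perm.sign h = 1) →
  (∀ a b c d : Fin 14, a ≠ b → c ≠ d → ∃ h ∈ H, h a = c ∧ h b = d) → yY ∈ H → (∀ w ∈ H, ¬ QC w) → ∀ h ∈ H, K0 h

/-- (B4A) -/
def B4A : Prop := ∀ x : Perm (Fin 14), Perm.sign x = 1 → (∀ c < 8, ¬ Pres c x) →
  (∀ w ∈ Subgroup.closure ({x, sS} : Set (Perm (Fin 14))), ¬ QC w) →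
  ∃ l : Perm (Fin 14), l 13 = 0 ∧ l 0 = 1 ∧ l 1 = 2 ∧ K0 (l⁻¹ * sS * l) ∧ K0 (l⁻¹ * x * l)

/-- (B4B) -/
def B4B : Prop := ∀ i : Fin 4, ∀ l : Perm (Fin 14), l 13 = 0 → l 0 = 1 → l 1 = 2 → K0 (l⁻¹ * sS * l) →
  ∀ x : Perm (Fin 14), x ≠ 1 → K0 (l⁻¹ * ((g i)⁻¹ * x * g i) * l) →
  ∃ j : Fin 4, (∀ c < 8, ¬ Pres c ((g j)⁻¹ * x * g j)) ∧ ∃ w ∈ Subgroup.closure ({x, s j} : Set (Perm (Fin 14))), QC w

/-- (B5) -/
def B5 : Prop := ∀ x : Perm (Fin 14), Perm.sign x = 1 → (∀ i : Fin 4, ∃ c < 8, Pres c ((g i)⁻¹ * x * g i)) → x = 1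

/-- (JOR) -/
def JOR : Prop := ∀ x : Perm (Fin 14), (∀ c < 8, ¬ Pres c x) →
  (∃ w ∈ Subgroup.closure ({x, sS} : Set (Perm (Fin 14))), QC w) →
  alternatingGroup (Fin 14) ≤ Subgroup.closure ({x, sS} : Set (Perm (Fin 14)))

end Pool.Agent.V8H69.TD
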