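import Pool.Agent.V8H69.TD.SearchProof
import Pool.Agent.V8H69.TD.Stm

/-!
# One case of the search, and the case of four bipartitions
-/

set_option autoImplicit false

namespace Pool.Agent.V8H69.TD

open Equiv

theorem ai (f : Perm (Fin 14)) (z : Fin 14) : f (f⁻¹ z) = z := f.apply_symm_apply z

theorem ia (f : Perm (Fin 14)) (z : Fin 14) : f⁻¹ (f z) = z := f.symm_apply_apply z

theorem sign_invol {x : Perm (Fin 14)} (h : x * x = 1) (h4 : x.support.card % 4 = 2) : Perm.sign x = -1 := by
  have hall : ∀ k ∈ x.cycleType, k = 2 := by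
    intro k hk
    have h1 := Perm.dvd_of_mem_cycleType hk
    have h2 := Perm.two_le_of_mem_cycleType hk
    have h3 : orderOf x ∣ 2 := orderOf_dvd_of_pow_eq_one (by rw [pow_two, h])
    have h4 := Nat.le_of_dvd (by norm_num) (h1.trans h3)
    omega
  have hrep : x.cycleType = Multiset.replicate (Multiset.card x.cycleType) 2 := Multiset.eq_replicate_card.2 hall
  have hsum : x.cycleType.sum = x.support.card := Perm.sum_cycleType x
  rw [hrep, Multiset.sum_replicate, smul_eq_mul] at hsum
  rw [Perm.sign_of_cycleType, Perm.sum_cycleType, ← hsum]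
  have hodd : Odd (Multiset.card x.cycleType * 2 + Multiset.card x.cycleType) := by
    rw [Nat.odd_iff]; omega
  exact hodd.neg_one_pow

theorem moved_eq {c : ℕ} {x : Perm (Fin 14)} (h : Codes c x) : moved c = x.support.card := by
  have key : ∀ n, n ≤ 14 → (Nat.rec (motive := fun _ => ℕ) 0
      (fun z ih => cond (Nat.beq (look c z) z) ih (Nat.succ ih)) n : ℕ) =
      (Finset.univ.filter (fun z : Fin 14 => z.val < n ∧ x z ≠ z)).card := by
    intro n
    induction n with
    | zero => intro _; simp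
    | succ n ih =>
      intro hn
      have ih' := ih (by omega)
      show cond (Nat.beq (look c n) n) _ (Nat.succ _) = _
      rw [ih']
      obtain ⟨z, hz⟩ : ∃ z : Fin 14, z.val = n := ⟨⟨n, by omega⟩, rfl⟩
      have hcz := h z
      rw [hz] at hcz
      by_cases hx : x z = z
      · have : Nat.beq (look c n) n = true := by
          rw [Nat.beq_eq, hcz, hx, hz]
        rw [this, cond_true]
        congr 1
        ext w
        simp only [Finset.mem_filter, Finset.mem_univ, true_and]
        constructor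
        · rintro ⟨h1, h2⟩; exact ⟨by omega, h2⟩
        · rintro ⟨h1, h2⟩
          refine ⟨?_, h2⟩
          rcases Nat.lt_succ_iff_lt_or_eq.1 h1 with h3 | h3
          · exact h3
          · exfalso; apply h2
            have : w = z := Fin.ext (by rw [h3, hz])
            rw [this, hx]
      · have : Nat.beq (look c n) n = false := by
          apply beq_false_of_ne'
          rw [hcz]
          intro h0
          exact hx (Fin.ext (by rw [h0, hz]))
        rw [this, cond_false]
        have : (Finset.univ.filter (fun w : Fin 14 => w.val < n + 1 ∧ x w ≠ w)) =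
            insert z (Finset.univ.filter (fun w : Fin 14 => w.val < n ∧ x w ≠ w)) := by
          ext w
          simp only [Finset.mem_filter, Finset.mem_univ, true_and, Finset.mem_insert]
          constructor
          · rintro ⟨h1, h2⟩
            rcases Nat.lt_succ_iff_lt_or_eq.1 h1 with h3 | h3
            · exact Or.inr ⟨h3, h2⟩
            · exact Or.inl (Fin.ext (by rw [h3, hz]))
          · rintro (h1 | ⟨h1, h2⟩)
            · rw [h1]; exact ⟨by omega, hx⟩
            · exact ⟨by omega, h2⟩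
        rw [this, Finset.card_insert_of_notMem]
        simp [hz]
  have := key 14 le_rfl
  unfold moved
  rw [this]
  congr 1
  ext z
  simp [Perm.mem_support]

theorem leafOK_spec {c : ℕ} {x : Perm (Fin 14)} (h : Codes c x) (hl : leafOK c = true) (hs : Perm.sign x = 1) :
    x = 1 := by
  unfold leafOK at hl
  cases h1 : allN 14 (fun z => Nat.beq (look c z) z) with
  | true =>
    ext z
    have := Nat.eq_of_beq_eq_true (allN_spec h1 z.val z.2)
    rw [h z] at this
    simpa using this
  | false =>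
    rw [h1, cond_false] at hl
    cases h2 : allN 14 (fun z => Nat.beq (look c (look c z)) z) with
    | false => rw [h2] at hl; simp at hl
    | true =>
      rw [h2, cond_true] at hl
      have hxx : x * x = 1 := by
        ext z
        have := Nat.eq_of_beq_eq_true (allN_spec h2 z.val z.2)
        rw [h z, h (x z)] at this
        simpa using this
      have h3 := Nat.eq_of_beq_eq_true hl
      rw [moved_eq h] at h3
      have h4 := sign_invol hxx h3
      rw [hs] at h4
      exact absurd h4 (by decide)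

/-- colour of a pair of numbers `< 14` -/
def colN (a b : ℕ) : ℕ :=
  cond (Nat.ble 7 a) (cond (Nat.ble 7 b) 7 (Nat.mod (Nat.sub a b) 7))
    (cond (Nat.ble 7 b) (Nat.mod (Nat.sub b a) 7) 7)

theorem colN_eq : ∀ a b : Fin 14, colN a b = col a b := by decide +kernel

theorem col_lt : ∀ a b : Fin 14, col a b < 8 := by decide +kernel

/-- the four colours of the pair of the points `u, v` of the relabelling `d` -/
def e4 (d u v : ℕ) : ℕ :=
  Nat.lor (Nat.lor (Nat.shiftLeft 1 (colN (look (gic 0) (look d u)) (look (gic 0) (look d v))))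
    (Nat.shiftLeft 1 (Nat.add 8 (colN (look (gic 1) (look d u)) (look (gic 1) (look d v))))))
  (Nat.lor (Nat.shiftLeft 1 (Nat.add 16 (colN (look (gic 2) (look d u)) (look (gic 2) (look d v)))))
    (Nat.shiftLeft 1 (Nat.add 24 (colN (look (gic 3) (look d u)) (look (gic 3) (look d v))))))

/-- check of the table -/
def tabOK (T d : ℕ) : Bool :=
  allN 14 (fun u => allN 14 (fun v => cond (Nat.beq u v) true
    (Nat.beq (Nat.land (ent T u v) 4294967295) (e4 d u v))))

/-- check of the partners -/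
def mateOK (T p : ℕ) : Bool :=
  allN 14 (fun u => allN 14 (fun v => cond (Nat.beq (Nat.land (Nat.shiftRight (ent T u v) p) 1) 1)
    (Nat.beq v (Nat.xor u 1)) (cond (Nat.beq v (Nat.xor u 1)) false true)))

theorem codes_gi (i : Fin 4) : Codes (gic i) (g i)⁻¹ := by
  have : ∀ i : Fin 4, ∀ z : Fin 14, look (gic i) z = (fn (gic i) z : ℕ) := by decide +kernel
  intro z
  exact this i z

theorem one_shift (k p : ℕ) : (Nat.shiftLeft 1 k).testBit p = decide (k = p) := by
  show (1 <<< k).testBit p = _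
  rw [Nat.one_shiftLeft, Nat.testBit_two_pow]

theorem e4_testBit {dc : ℕ} {d : Perm (Fin 14)} (hd : Codes dc d) (u v : Fin 14) (i : Fin 4) (c : ℕ) (hc : c < 8) :
    (e4 dc u v).testBit (8 * i.val + c) = decide (col ((g i)⁻¹ (d u)) ((g i)⁻¹ (d v)) = c) := by
  have hk : ∀ j : Fin 4, colN (look (gic j) (look dc u)) (look (gic j) (look dc v)) =
      col ((g j)⁻¹ (d u)) ((g j)⁻¹ (d v)) := by
    intro j
    rw [hd u, hd v, codes_gi j (d u), codes_gi j (d v), colN_eq]
  have h0 := hk 0
  have h1 := hk 1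
  have h2 := hk 2
  have h3 := hk 3
  have l0 := col_lt ((g 0)⁻¹ (d u)) ((g 0)⁻¹ (d v))
  have l1 := col_lt ((g 1)⁻¹ (d u)) ((g 1)⁻¹ (d v))
  have l2 := col_lt ((g 2)⁻¹ (d u)) ((g 2)⁻¹ (d v))
  have l3 := col_lt ((g 3)⁻¹ (d u)) ((g 3)⁻¹ (d v))
  rw [show ((0 : Fin 4) : ℕ) = 0 from rfl] at h0
  rw [show ((1 : Fin 4) : ℕ) = 1 from rfl] at h1
  rw [show ((2 : Fin 4) : ℕ) = 2 from rfl] at h2
  rw [show ((3 : Fin 4) : ℕ) = 3 from rfl] at h3
  unfold e4
  rw [h0, h1, h2, h3]
  have key : ∀ k0 k1 k2 k3 p : ℕ, (Nat.lor (Nat.lor (Nat.shiftLeft 1 k0) (Nat.shiftLeft 1 (Nat.add 8 k1)))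
      (Nat.lor (Nat.shiftLeft 1 (Nat.add 16 k2)) (Nat.shiftLeft 1 (Nat.add 24 k3)))).testBit p = true ↔
      (k0 = p ∨ 8 + k1 = p) ∨ (16 + k2 = p ∨ 24 + k3 = p) := by
    intro k0 k1 k2 k3 p
    show (((1 <<< k0) ||| (1 <<< (8 + k1))) ||| ((1 <<< (16+k2)) ||| (1 <<< (24 + k3)))).testBit p = true ↔ _
    simp only [Nat.testBit_or, Nat.one_shiftLeft, Nat.testBit_two_pow, Bool.or_eq_true, decide_eq_true_eq]
  rw [Bool.eq_iff_iff, key, decide_eq_true_eq]
  fin_cases i
  · show _ ↔ col ((g 0)⁻¹ (d u)) ((g 0)⁻¹ (d v)) = c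
    show (_ = 8 * 0 + c ∨ _ = 8 * 0 + c) ∨ (_ = 8 * 0 + c ∨ _ = 8 * 0 + c) ↔ _
    omega
  · show _ ↔ col ((g 1)⁻¹ (d u)) ((g 1)⁻¹ (d v)) = c
    show (_ = 8 * 1 + c ∨ _ = 8 * 1 + c) ∨ (_ = 8 * 1 + c ∨ _ = 8 * 1 + c) ↔ _
    omega
  · show _ ↔ col ((g 2)⁻¹ (d u)) ((g 2)⁻¹ (d v)) = c
    show (_ = 8 * 2 + c ∨ _ = 8 * 2 + c) ∨ (_ = 8 * 2 + c ∨ _ = 8 * 2 + c) ↔ _
    omega
  · show _ ↔ col ((g 3)⁻¹ (d u)) ((g 3)⁻¹ (d v)) = c
    show (_ = 8 * 3 + c ∨ _ = 8 * 3 + c) ∨ (_ = 8 * 3 + c ∨ _ = 8 * 3 + c) ↔ _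
    omega

theorem testBit_of_land {a b p : ℕ} (h : Nat.land a 4294967295 = b) (hp : p < 32) :
    a.testBit p = b.testBit p := by
  have h' : a &&& 4294967295 = b := h
  rw [← h', Nat.testBit_and]
  have : (4294967295 : ℕ) = 2 ^ 32 - 1 := by norm_num
  rw [this, Nat.testBit_two_pow_sub_one]
  simp [hp]

/-- all the checks of a case -/
def caseOK (i r T dc : ℕ) : Bool :=
  cond (tabOK T dc) (cond (mateOK T (Nat.add (Nat.mul 8 i) r)) (dfs T leafOK 7 0 0 0) false) false

theorem testBit_iff_beq (a p : ℕ) : Nat.beq (Nat.land (Nat.shiftRight a p) 1) 1 = a.testBit p := by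
  rw [Bool.eq_iff_iff, Nat.beq_eq]
  show (a >>> p) &&& 1 = 1 ↔ _
  rw [Nat.and_one_is_mod, Nat.testBit_eq_decide_div_mod_eq, decide_eq_true_eq, Nat.shiftRight_eq_div_pow]

theorem caseOK_spec {i : Fin 4} {r T dc : ℕ} {d : Perm (Fin 14)} (hd : Codes dc d) (hr : r < 8)
    (h : caseOK i r T dc = true) (x : Perm (Fin 14)) (hs : Perm.sign x = 1)
    (hx : ∀ i : Fin 4, ∃ c < 8, Pres c ((g i)⁻¹ * x * g i)) (hir : Pres r ((g i)⁻¹ * x * g i)) : x = 1 := by
  unfold caseOK at h
  cases h1 : tabOK T dc with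
  | false => rw [h1] at h; simp at h
  | true =>
  cases h2 : mateOK T (Nat.add (Nat.mul 8 i) r) with
  | false => rw [h1, h2] at h; simp at h
  | true =>
  rw [h1, h2, cond_true, cond_true] at h
  have htab : ∀ u v : Fin 14, u ≠ v → ∀ j : Fin 4, ∀ c < 8, (ent T u v).testBit (8 * j.val + c) =
      decide (col ((g j)⁻¹ (d u)) ((g j)⁻¹ (d v)) = c) := by
    intro u v huv j c hc
    have h3 := allN_spec (allN_spec h1 u u.2) v v.2
    rw [beq_false_of_ne' (fun h => huv (Fin.ext h)), cond_false] at h3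
    rw [testBit_of_land (Nat.eq_of_beq_eq_true h3) (by have := j.2; omega), e4_testBit hd u v j c hc]
  have hmate : ∀ u v : Fin 14, (ent T u v).testBit (8 * i.val + r) = true ↔ v.val = Nat.xor u.val 1 := by
    intro u v
    have h3 := allN_spec (allN_spec h2 u u.2) v v.2
    rw [testBit_iff_beq] at h3
    have h4 : Nat.add (Nat.mul 8 i) r = 8 * i.val + r := rfl
    rw [h4] at h3
    cases h5 : (ent T u v).testBit (8 * i.val + r) with
    | true =>
      rw [h5, cond_true] at h3
      exact ⟨fun _ => Nat.eq_of_beq_eq_true h3, fun _ => rfl⟩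
    | false =>
      rw [h5, cond_false] at h3
      constructor
      · intro h6; exact absurd h6 (by decide)
      · intro h6
        rw [h6, Nat.beq_refl] at h3
        simp at h3
  have hpb : ∀ j : Fin 4, ∀ c < 8, Pres c ((g j)⁻¹ * x * g j) → PB T (d⁻¹ * x * d) (8 * j.val + c) := by
    intro j c hc hp u v huv
    rw [htab u v huv j c hc, htab _ _ (fun h => huv ((d⁻¹ * x * d).injective h)) j c hc]
    have h3 := hp ((g j)⁻¹ (d u)) ((g j)⁻¹ (d v))
      (fun h => huv (d.injective ((g j)⁻¹.injective h)))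
    rw [Perm.mul_apply, Perm.mul_apply, Perm.mul_apply, Perm.mul_apply, ai, ai] at h3
    rw [decide_eq_decide, Perm.mul_apply, Perm.mul_apply, Perm.mul_apply, Perm.mul_apply, ai, ai]
    exact h3.symm
  obtain ⟨c, hc1, hc2⟩ := dfs_sound (T := T) (leaf := leafOK) (x := d⁻¹ * x * d) (by
      intro z z' hz
      have hzz : z ≠ z' := by
        intro h0
        rw [h0] at hz
        have : ∀ k < 14, k ≠ Nat.xor k 1 := by decide
        exact this z'.val z'.2 hz
      have h3 := hpb i r hr hir z z' hzz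
      rw [(hmate z z').2 hz] at h3
      exact (hmate _ _).1 h3.symm) (by
      intro j hj
      obtain ⟨c, hc, hc'⟩ := hx ⟨j, hj⟩
      exact ⟨c, hc, hpb ⟨j, hj⟩ c hc hc'⟩) 7 0 0 0 le_rfl
      ⟨by norm_num, by intro z hz; simp at hz, by intro v hv; simp at hv, by intro p _; simp⟩ h
  have hs' : Perm.sign (d⁻¹ * x * d) = 1 := by
    rw [map_mul, map_mul, hs, mul_one, ← map_mul]
    simp
  have h3 := leafOK_spec hc1 hc2 hs'
  have h4 : x = d * (d⁻¹ * x * d) * d⁻¹ := by group
  rw [h4, h3]; group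

/-- the side of the point `u` in the colouring `i` -/
def side (i : Fin 4) (u : Fin 14) : Bool := decide (((g i)⁻¹ u).val < 7)

theorem side_inj : ∀ u v : Fin 14, (∀ i, side i u = side i v) → u = v := by decide +kernel

theorem side_shift : ∀ t : Fin 4 → Bool, t = (fun _ => false) ∨ t = (fun _ => true) ∨
    ∃ u : Fin 14, ∀ v : Fin 14, ∃ i, side i v ≠ xor (side i u) (t i) := by decide +kernel

theorem col7 : ∀ a b : Fin 14, col a b = 7 ↔ decide (a.val < 7) = decide (b.val < 7) := by decide +kernel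

/-- a permutation which preserves the four bipartitions -/
theorem bip_case (x : Perm (Fin 14)) (hs : Perm.sign x = 1) (h : ∀ i : Fin 4, Pres 7 ((g i)⁻¹ * x * g i)) :
    x = 1 := by
  have h1 : ∀ i, ∀ u v : Fin 14, u ≠ v → (side i (x u) = side i (x v) ↔ side i u = side i v) := by
    intro i u v huv
    have := h i ((g i)⁻¹ u) ((g i)⁻¹ v) (fun h => huv ((g i)⁻¹.injective h))
    rw [col7, col7, Perm.mul_apply, Perm.mul_apply, Perm.mul_apply, Perm.mul_apply, ai, ai] at this
    exact this
  obtain ⟨t, ht⟩ : ∃ t : Fin 4 → Bool, ∀ i, t i = xor (side i 0) (side i (x 0)) := ⟨_, fun _ => rfl⟩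
  have h2 : ∀ i u, side i (x u) = xor (side i u) (t i) := by
    intro i u
    rw [ht]
    by_cases hu : u = 0
    · rw [hu]; cases side i 0 <;> cases side i (x 0) <;> rfl
    · have := h1 i u 0 hu
      revert this
      cases side i (x u) <;> cases side i (x 0) <;> cases side i u <;> cases side i 0 <;> decide
  rcases side_shift t with h3 | h3 | ⟨u, hu⟩
  · ext u
    have : x u = u := side_inj _ _ (fun i => by rw [h2, h3]; simp)
    simp [this]
  · have hxx : x * x = 1 := by
      ext u
      have : x (x u) = u := side_inj _ _ (fun i => by rw [h2, h2, h3]; simp)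
      simp [this]
    have hne : ∀ u, x u ≠ u := by
      intro u hu
      have := h2 0 u
      rw [hu, h3] at this
      simp at this
    have hsup : x.support = Finset.univ := by
      ext u; simp [Perm.mem_support, hne u]
    have := sign_invol hxx (by rw [hsup]; simp)
    rw [hs] at this
    exact absurd this (by decide)
  · obtain ⟨i, hi⟩ := hu (x u)
    exact absurd (h2 i u) hi

end Pool.Agent.V8H69.TD
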