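import Pool.Agent.V8H69.TD.Stm
import Pool.Agent.V8H69.TD.B5Lem

/-!
# Assembly
-/

set_option autoImplicit false

namespace Pool.Agent.V8H69.TD

open Equiv

theorem alt_conj {x : Perm (Fin 14)} {j : Fin 4}
    (h : alternatingGroup (Fin 14) ≤ Subgroup.closure ({(g j)⁻¹ * x * g j, sS} : Set (Perm (Fin 14)))) :
    alternatingGroup (Fin 14) ≤ Subgroup.closure ({x, s j} : Set (Perm (Fin 14))) := by
  have h3 : Subgroup.closure ({x, s j} : Set (Perm (Fin 14))) =
      (Subgroup.closure ({(g j)⁻¹ * x * g j, sS} : Set (Perm (Fin 14)))).map (MulAut.conj (g j)).toMonoidHom := by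
    rw [MonoidHom.map_closure, Set.image_pair]
    congr 2
    · simp only [MulEquiv.toMonoidHom_eq_coe, MonoidHom.coe_coe, MulAut.conj_apply]; group
  rw [h3]
  intro a ha
  refine ⟨(g j)⁻¹ * a * g j, h ?_, ?_⟩
  · rw [Perm.mem_alternatingGroup] at ha ⊢
    rw [map_mul, map_mul, ha, mul_one, ← map_mul]
    simp
  · simp only [MulEquiv.toMonoidHom_eq_coe, MonoidHom.coe_coe, MulAut.conj_apply]; group

theorem qc_back {x : Perm (Fin 14)} {j : Fin 4}
    (h : ∃ w ∈ Subgroup.closure ({x, s j} : Set (Perm (Fin 14))), QC w) :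
    ∃ w ∈ Subgroup.closure ({(g j)⁻¹ * x * g j, sS} : Set (Perm (Fin 14))), QC w := by
  obtain ⟨w, hw, N, q, hq, hq7, hc⟩ := h
  have h3 : Subgroup.closure ({(g j)⁻¹ * x * g j, sS} : Set (Perm (Fin 14))) =
      (Subgroup.closure ({x, s j} : Set (Perm (Fin 14)))).map (MulAut.conj (g j)⁻¹).toMonoidHom := by
    have e1 : (MulAut.conj (g j)⁻¹).toMonoidHom x = (g j)⁻¹ * x * g j := by
      simp only [MulEquiv.toMonoidHom_eq_coe, MonoidHom.coe_coe, MulAut.conj_apply]; group
    have e2 : (MulAut.conj (g j)⁻¹).toMonoidHom (s j) = sS := by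
      simp only [MulEquiv.toMonoidHom_eq_coe, MonoidHom.coe_coe, MulAut.conj_apply, s]; group
    rw [MonoidHom.map_closure, Set.image_pair, e1, e2]
  refine ⟨(MulAut.conj (g j)⁻¹).toMonoidHom w, ?_, N, q, hq, hq7, ?_⟩
  · rw [h3]; exact Subgroup.mem_map_of_mem _ hw
  · simp only [MulEquiv.toMonoidHom_eq_coe, MonoidHom.coe_coe, MulAut.conj_apply]
    rw [conj_pow, Perm.cycleType_conj, hc]

/-- the main computation: for every even permutation `x ≠ 1` one of the groups generated by `x` and `s i`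
contains the alternating group -/
theorem main (hjor : JOR) (h4a : B4A) (h4b : B4B) (h5 : B5) (x : Perm (Fin 14)) (hs : Perm.sign x = 1)
    (hx : x ≠ 1) : ∃ i, alternatingGroup (Fin 14) ≤ Subgroup.closure ({x, s i} : Set (Perm (Fin 14))) := by
  have h1 : ∃ i : Fin 4, ∀ c < 8, ¬ Pres c ((g i)⁻¹ * x * g i) := by
    by_contra hcon
    push Not at hcon
    exact hx (h5 x hs hcon)
  obtain ⟨i, hi⟩ := h1
  by_cases hq : ∃ w ∈ Subgroup.closure ({(g i)⁻¹ * x * g i, sS} : Set (Perm (Fin 14))), QC w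
  · exact ⟨i, alt_conj (hjor _ hi hq)⟩
  · push Not at hq
    have hs' : Perm.sign ((g i)⁻¹ * x * g i) = 1 := by
      rw [map_mul, map_mul, hs, mul_one, ← map_mul]
      simp
    obtain ⟨l, h13, h0, h1, hK1, hK2⟩ := h4a _ hs' hi hq
    obtain ⟨j, hj1, hj2⟩ := h4b i l h13 h0 h1 hK1 x hx hK2
    exact ⟨j, alt_conj (hjor _ hj1 (qc_back hj2))⟩

/-- exchange of the two cycles of `sS` -/
def tau : Perm (Fin 14) where
  toFun z := ⟨(z.val + 7) % 14, Nat.mod_lt _ (by norm_num)⟩
  invFun z := ⟨(z.val + 7) % 14, Nat.mod_lt _ (by norm_num)⟩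
  left_inv := by decide
  right_inv := by decide

theorem sign_tau : Perm.sign tau = -1 := by
  apply sign_invol
  · decide +kernel
  · have : tau.support = Finset.univ := by decide +kernel
    rw [this]; simp

theorem tau_comm : tau * sS * tau⁻¹ = sS := by decide +kernel

theorem sS_cycleType : sS.cycleType = {7, 7} := by
  have h7 : sS ^ 7 = 1 := by decide +kernel
  have hall : ∀ k ∈ sS.cycleType, k = 7 := by
    intro k hk
    have h1 := Perm.dvd_of_mem_cycleType hk
    have h2 := Perm.two_le_of_mem_cycleType hk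
    have h3 : orderOf sS ∣ 7 := orderOf_dvd_of_pow_eq_one h7
    have h4 := (Nat.dvd_prime (by norm_num : Nat.Prime 7)).1 (h1.trans h3)
    omega
  have hrep := Multiset.eq_replicate_card.2 hall
  have hsum : sS.cycleType.sum = sS.support.card := Perm.sum_cycleType sS
  have hsup : sS.support = Finset.univ := by decide +kernel
  rw [hrep, Multiset.sum_replicate, smul_eq_mul, hsup, Finset.card_univ, Fintype.card_fin] at hsum
  have : Multiset.card sS.cycleType = 2 := by omega
  rw [hrep, this]; rfl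

theorem sign_sS : Perm.sign sS = 1 := by
  rw [Perm.sign_of_cycleType, sS_cycleType]
  decide

theorem sign_s (i : Fin 4) : Perm.sign (s i) = 1 := by
  unfold s
  rw [map_mul, map_mul, sign_sS, mul_one, ← map_mul]
  simp

/-- the four elements, as elements of the alternating group -/
def sA (i : Fin 4) : alternatingGroup (Fin 14) := ⟨s i, Perm.mem_alternatingGroup.2 (sign_s i)⟩

theorem conj_sA (i : Fin 4) : IsConj (⟨sS, Perm.mem_alternatingGroup.2 sign_sS⟩ : alternatingGroup (Fin 14)) (sA i) := by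
  rw [isConj_iff]
  rcases Int.units_eq_one_or (Perm.sign (g i)) with h | h
  · refine ⟨⟨g i, Perm.mem_alternatingGroup.2 h⟩, ?_⟩
    apply Subtype.ext
    rfl
  · refine ⟨⟨g i * tau, Perm.mem_alternatingGroup.2 ?_⟩, ?_⟩
    · rw [map_mul, h, sign_tau]; decide
    · apply Subtype.ext
      show g i * tau * sS * (g i * tau)⁻¹ = s i
      have : g i * tau * sS * (g i * tau)⁻¹ = g i * (tau * sS * tau⁻¹) * (g i)⁻¹ := by group
      rw [this, tau_comm]; rfl

theorem s_inj : ∀ i j : Fin 4, s i = s j → i = j := by decide +kernel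

theorem sA_inj : Function.Injective sA := fun i j h => s_inj i j (congrArg Subtype.val h)

theorem cycleType_sA (i : Fin 4) : (sA i : Perm (Fin 14)).cycleType = {7, 7} := by
  show (g i * sS * (g i)⁻¹).cycleType = {7, 7}
  rw [Perm.cycleType_conj, sS_cycleType]

theorem closure_eq_top {x y : alternatingGroup (Fin 14)}
    (h : alternatingGroup (Fin 14) ≤ Subgroup.closure ({(x : Perm (Fin 14)), (y : Perm (Fin 14))} : Set (Perm (Fin 14)))) :
    Subgroup.closure ({x, y} : Set (alternatingGroup (Fin 14))) = ⊤ := by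
  apply Subgroup.map_injective (alternatingGroup (Fin 14)).subtype_injective
  rw [MonoidHom.map_closure, Set.image_pair]
  apply le_antisymm
  · exact Subgroup.closure_le _ |>.2 (by
      rintro z (rfl | rfl)
      · exact ⟨x, trivial, rfl⟩
      · exact ⟨y, trivial, rfl⟩)
  · rintro z ⟨w, _, rfl⟩
    exact h w.2

end Pool.Agent.V8H69.TD
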