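import Pool.Agent.V8H69.TD.Defs

/-!
# A search through the permutations which preserve a colour of each of four colourings
-/

set_option autoImplicit false

namespace Pool.Agent.V8H69.TD

open Equiv

/-- `f k` for all `k < n` -/
def allN (n : ℕ) (f : ℕ → Bool) : Bool :=
  Nat.rec (motive := fun _ => Bool) true (fun k ih => cond (f k) ih false) n

/-- `f k` for some `k < n` -/
def anyN (n : ℕ) (f : ℕ → Bool) : Bool :=
  Nat.rec (motive := fun _ => Bool) false (fun k ih => cond (f k) true ih) n

theorem allN_spec {n : ℕ} {f : ℕ → Bool} (h : allN n f = true) : ∀ k < n, f k = true := by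
  induction n with
  | zero => intro k hk; omega
  | succ n ih =>
    have h' : cond (f n) (allN n f) false = true := h
    intro k hk
    cases hf : f n with
    | false => rw [hf] at h'; simp at h'
    | true =>
      rw [hf] at h'
      rcases Nat.lt_succ_iff_lt_or_eq.1 hk with h1 | rfl
      · exact ih h' k h1
      · exact hf

theorem anyN_spec {n : ℕ} {f : ℕ → Bool} (h : anyN n f = true) : ∃ k < n, f k = true := by
  induction n with
  | zero => simp [anyN] at h
  | succ n ih =>
    have h' : cond (f n) true (anyN n f) = true := h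
    cases hf : f n with
    | false =>
      rw [hf] at h'
      obtain ⟨k, hk, hk'⟩ := ih h'
      exact ⟨k, by omega, hk'⟩
    | true => exact ⟨n, by omega, hf⟩

/-- The disjunction of the `xor`s of the entries `h` of the row `RU` and the entries `img h` of the row `RV`,
for `h < k`. -/
def acc (RU RV img k : ℕ) : ℕ :=
  Nat.rec (motive := fun _ => ℕ) 0
    (fun h ih => Nat.lor ih (Nat.xor (Nat.shiftRight RU (Nat.mul 32 h))
      (Nat.shiftRight RV (Nat.mul 32 (look img h))))) k

/-- none of the four lowest bytes of `d` is `255` -/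
def alive (d : ℕ) : Bool :=
  cond (Nat.beq (Nat.land d 255) 255) false
  (cond (Nat.beq (Nat.land (Nat.shiftRight d 8) 255) 255) false
  (cond (Nat.beq (Nat.land (Nat.shiftRight d 16) 255) 255) false
  (cond (Nat.beq (Nat.land (Nat.shiftRight d 24) 255) 255) false true)))

/-- second half of the step: the image of the second point of the pair -/
def step2 (T : ℕ) (ih : ℕ → ℕ → ℕ → Bool) (img used h v d1 img1 : ℕ) : Bool :=
  cond (alive (Nat.lor d1 (acc (Nat.shiftRight T (Nat.mul 448 (Nat.succ h)))
      (Nat.shiftRight T (Nat.mul 448 (Nat.xor v 1))) img1 (Nat.succ h))))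
    (ih (Nat.lor img1 (Nat.shiftLeft (Nat.xor v 1) (Nat.mul 4 (Nat.succ h))))
      (Nat.lor (Nat.lor used (Nat.shiftLeft 1 v)) (Nat.shiftLeft 1 (Nat.xor v 1)))
      (Nat.lor d1 (acc (Nat.shiftRight T (Nat.mul 448 (Nat.succ h)))
      (Nat.shiftRight T (Nat.mul 448 (Nat.xor v 1))) img1 (Nat.succ h)))) true

/-- one step: the image of the points `h, h + 1` are `v` and `v xor 1` -/
def step (T : ℕ) (ih : ℕ → ℕ → ℕ → Bool) (img used dead h v : ℕ) : Bool :=
  cond (Nat.beq (Nat.land (Nat.shiftRight used v) 1) 1) true
    (cond (alive (Nat.lor dead (acc (Nat.shiftRight T (Nat.mul 448 h)) (Nat.shiftRight T (Nat.mul 448 v)) img h)))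
      (step2 T ih img used h v
        (Nat.lor dead (acc (Nat.shiftRight T (Nat.mul 448 h)) (Nat.shiftRight T (Nat.mul 448 v)) img h))
        (Nat.lor img (Nat.shiftLeft v (Nat.mul 4 h)))) true)

/-- the search, with `n` pairs left -/
def dfs (T : ℕ) (leaf : ℕ → Bool) (n : ℕ) : ℕ → ℕ → ℕ → Bool :=
  Nat.rec (motive := fun _ => ℕ → ℕ → ℕ → Bool)
    (fun img _ _ => leaf img)
    (fun n ih img used dead => allN 14 (fun v => step T ih img used dead (Nat.sub 12 (Nat.mul 2 n)) v)) n

/-- number of moved points -/
def moved (c : ℕ) : ℕ :=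
  Nat.rec (motive := fun _ => ℕ) 0 (fun z ih => cond (Nat.beq (look c z) z) ih (Nat.succ ih)) 14

/-- the code of the identity or of an odd involution -/
def leafOK (c : ℕ) : Bool :=
  cond (allN 14 (fun z => Nat.beq (look c z) z)) true
    (cond (allN 14 (fun z => Nat.beq (look c (look c z)) z)) (Nat.beq (Nat.mod (moved c) 4) 2) false)

end Pool.Agent.V8H69.TD
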