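import Pool.Agent.V8H69.TD.Search

/-!
# Soundness of the search
-/

set_option autoImplicit false

namespace Pool.Agent.V8H69.TD

open Equiv

/-- entry `u, v` of the table `T` -/
def ent (T u v : ℕ) : ℕ := Nat.shiftRight (Nat.shiftRight T (Nat.mul 448 u)) (Nat.mul 32 v)

/-- the colour with bit `p` is preserved -/
def PB (T : ℕ) (x : Perm (Fin 14)) (p : ℕ) : Prop :=
  ∀ u v : Fin 14, u ≠ v → (ent T u v).testBit p = (ent T (x u) (x v)).testBit p

theorem look_lor_shift_self (img v h : ℕ) (hv : v < 16) (himg : img < 2 ^ (4 * h)) :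
    look (Nat.lor img (Nat.shiftLeft v (Nat.mul 4 h))) h = v := by
  show ((img ||| (v <<< (4 * h))) >>> (4 * h)) &&& 15 = v
  rw [Nat.shiftRight_or_distrib, Nat.shiftLeft_shiftRight, Nat.shiftRight_eq_div_pow,
    Nat.div_eq_of_lt himg, Nat.zero_or]
  have : (15 : ℕ) = 2 ^ 4 - 1 := by norm_num
  rw [this, Nat.and_two_pow_sub_one_eq_mod]
  exact Nat.mod_eq_of_lt (by simpa using hv)

theorem look_lor_shift_ne (img v h k : ℕ) (hk : k < h) :
    look (Nat.lor img (Nat.shiftLeft v (Nat.mul 4 h))) k = look img k := by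
  show ((img ||| (v <<< (4 * h))) >>> (4 * k)) &&& 15 = (img >>> (4 * k)) &&& 15
  apply Nat.eq_of_testBit_eq
  intro i
  simp only [Nat.testBit_and, Nat.testBit_shiftRight, Nat.testBit_or, Nat.testBit_shiftLeft]
  by_cases hi : i < 4
  · have : ¬ (4 * h ≤ 4 * k + i) := by omega
    simp [this]
  · have : (15 : ℕ).testBit i = false := by
      apply Nat.testBit_lt_two_pow
      calc 15 < 2 ^ 4 := by norm_num
        _ ≤ 2 ^ i := Nat.pow_le_pow_right (by norm_num) (by omega)
    simp [this]

theorem lor_shift_lt (img v h : ℕ) (hv : v < 16) (himg : img < 2 ^ (4 * h)) :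
    Nat.lor img (Nat.shiftLeft v (Nat.mul 4 h)) < 2 ^ (4 * (h + 1)) := by
  show (img ||| (v <<< (4 * h))) < 2 ^ (4 * (h + 1))
  apply Nat.or_lt_two_pow
  · exact lt_of_lt_of_le himg (Nat.pow_le_pow_right (by norm_num) (by omega))
  · rw [Nat.shiftLeft_eq, show 4 * (h + 1) = 4 + 4 * h by ring, pow_add]
    exact Nat.mul_lt_mul_of_pos_right (by simpa using hv) (by positivity)

theorem acc_succ (RU RV img k : ℕ) : acc RU RV img (k + 1) = Nat.lor (acc RU RV img k)
    (Nat.xor (Nat.shiftRight RU (Nat.mul 32 k)) (Nat.shiftRight RV (Nat.mul 32 (look img k)))) := rfl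

/-- bits of preserved colours do not occur in `acc` -/
theorem acc_testBit {T : ℕ} {x : Perm (Fin 14)} {p : ℕ} (hp : PB T x p) {img : ℕ} (u : Fin 14) (k : ℕ)
    (hk : k ≤ u) (himg : ∀ h : Fin 14, h.val < k → look img h = x h) :
    (acc (Nat.shiftRight T (Nat.mul 448 u)) (Nat.shiftRight T (Nat.mul 448 (x u))) img k).testBit p = false := by
  induction k with
  | zero => simp [acc]
  | succ k ih =>
    rw [acc_succ]
    show ((acc _ _ img k) ||| ((Nat.shiftRight (Nat.shiftRight T (Nat.mul 448 u)) (Nat.mul 32 k)) ^^^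
      (Nat.shiftRight (Nat.shiftRight T (Nat.mul 448 (x u))) (Nat.mul 32 (look img k))))).testBit p = false
    rw [Nat.testBit_or, ih (by omega) (fun h hh => himg h (by omega)), Nat.testBit_xor]
    have hk14 : k < 14 := by have := u.2; omega
    have h1 := hp u ⟨k, hk14⟩ (by intro h; rw [h] at hk; simp at hk)
    have h2 := himg ⟨k, hk14⟩ (by simp)
    simp only at h2
    rw [h2]
    have h3 : (ent T u k).testBit p = (ent T (x u) (x ⟨k, hk14⟩)).testBit p := h1
    unfold ent at h3
    rw [h3]
    simp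

theorem byte_of_eq {d i : ℕ} (h : Nat.land (Nat.shiftRight d (8 * i)) 255 = 255) (c : ℕ) (hc : c < 8) :
    d.testBit (8 * i + c) = true := by
  have h' : (d >>> (8 * i)) &&& 255 = 255 := h
  have := congrArg (fun z => Nat.testBit z c) h'
  simp only [Nat.testBit_and, Nat.testBit_shiftRight] at this
  have h255 : (255 : ℕ).testBit c = true := by
    interval_cases c <;> decide
  rw [h255] at this
  simpa using this

theorem beq_false_of_ne' {a b : ℕ} (h : a ≠ b) : Nat.beq a b = false := by
  rw [Bool.eq_false_iff]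
  intro h0
  exact h (Nat.eq_of_beq_eq_true h0)

theorem alive_of {d : ℕ} (h : ∀ i < 4, ∃ c < 8, d.testBit (8 * i + c) = false) : alive d = true := by
  have key : ∀ i < 4, Nat.land (Nat.shiftRight d (8 * i)) 255 ≠ 255 := by
    intro i hi h0
    obtain ⟨c, hc, hc'⟩ := h i hi
    rw [byte_of_eq h0 c hc] at hc'
    exact Bool.noConfusion hc'
  have k0 : Nat.beq (Nat.land d 255) 255 = false := beq_false_of_ne' (key 0 (by norm_num))
  have k1 : Nat.beq (Nat.land (Nat.shiftRight d 8) 255) 255 = false := beq_false_of_ne' (key 1 (by norm_num))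
  have k2 : Nat.beq (Nat.land (Nat.shiftRight d 16) 255) 255 = false := beq_false_of_ne' (key 2 (by norm_num))
  have k3 : Nat.beq (Nat.land (Nat.shiftRight d 24) 255) 255 = false := beq_false_of_ne' (key 3 (by norm_num))
  unfold alive
  rw [k0, k1, k2, k3]
  rfl

/-- what is known about a permutation in the search -/
structure Inv (T : ℕ) (x : Perm (Fin 14)) (h img used dead : ℕ) : Prop where
  lt : img < 2 ^ (4 * h)
  img : ∀ z : Fin 14, z.val < h → look img z = x z
  used : ∀ v : ℕ, used.testBit v = true → ∃ z : Fin 14, z.val < h ∧ (x z : ℕ) = v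
  dead : ∀ p, PB T x p → dead.testBit p = false

theorem dfs_sound {T : ℕ} {leaf : ℕ → Bool} {x : Perm (Fin 14)}
    (hm : ∀ z z' : Fin 14, z'.val = Nat.xor z.val 1 → (x z').val = Nat.xor (x z).val 1)
    (hc : ∀ i < 4, ∃ c < 8, PB T x (8 * i + c)) :
    ∀ n img used dead, n ≤ 7 → Inv T x (14 - 2 * n) img used dead → dfs T leaf n img used dead = true →
      ∃ c, Codes c x ∧ leaf c = true := by
  intro n
  induction n with
  | zero =>
    intro img used dead _ hI h
    exact ⟨img, fun z => hI.img z (by have := z.2; omega), h⟩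
  | succ n ih =>
    intro img used dead hn hI h
    have h' : allN 14 (fun v => step T (dfs T leaf n) img used dead (Nat.sub 12 (Nat.mul 2 n)) v) = true := h
    have hh : Nat.sub 12 (Nat.mul 2 n) = 14 - 2 * (n + 1) := by
      show 12 - 2 * n = 14 - 2 * (n + 1)
      omega
    rw [hh] at h'
    obtain ⟨m, hm0⟩ : ∃ m, m = 14 - 2 * (n + 1) := ⟨_, rfl⟩
    rw [← hm0] at h' hI
    have hm2 : 14 - 2 * n = m + 2 := by omega
    rw [hm2] at ih
    have hmlt : m < 14 := by omega
    have hmlt' : m + 1 < 14 := by omega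
    have heven : m % 2 = 0 := by omega
    obtain ⟨u, hu⟩ : ∃ u : Fin 14, u.val = m := ⟨⟨m, hmlt⟩, rfl⟩
    obtain ⟨u', hu'⟩ : ∃ u' : Fin 14, u'.val = m + 1 := ⟨⟨m + 1, hmlt'⟩, rfl⟩
    have hxor : u'.val = Nat.xor u.val 1 := by
      rw [hu, hu']
      show m + 1 = m ^^^ 1
      rcases Nat.even_iff.2 heven with ⟨k, rfl⟩
      have : ∀ k < 7, k + k + 1 = (k + k) ^^^ 1 := by decide
      exact this k (by omega)
    have hxu' := hm u u' hxor
    have hs := allN_spec h' (x u).val (x u).2
    unfold step at hs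
    -- not used
    have hnu : Nat.beq (Nat.land (Nat.shiftRight used (x u).val) 1) 1 = false := by
      rw [Bool.eq_false_iff]
      intro h0
      have h1 := Nat.eq_of_beq_eq_true h0
      have h2 : used.testBit (x u).val = true := by
        have h1' : (used >>> (x u).val) &&& 1 = 1 := h1
        have := congrArg (fun z => Nat.testBit z 0) h1'
        simpa using this
      obtain ⟨z, hz, hz'⟩ := hI.used _ h2
      have : z = u := x.injective (Fin.ext hz')
      rw [this, hu] at hz
      exact lt_irrefl _ hz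
    rw [hnu, cond_false] at hs
    obtain ⟨d1, hd1⟩ : ∃ d1, d1 = Nat.lor dead (acc (Nat.shiftRight T (Nat.mul 448 m))
      (Nat.shiftRight T (Nat.mul 448 (x u).val)) img m) := ⟨_, rfl⟩
    rw [← hd1] at hs
    have hdead1 : ∀ p, PB T x p → d1.testBit p = false := by
      intro p hp
      rw [hd1]
      show (dead ||| _).testBit p = false
      rw [Nat.testBit_or, hI.dead p hp]
      have := acc_testBit hp (img := img) u m (by omega) hI.img
      rw [hu] at this
      rw [this]
      rfl
    have hal1 : alive d1 = true := alive_of (fun i hi => by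
      obtain ⟨c, hc1, hc2⟩ := hc i hi
      exact ⟨c, hc1, hdead1 _ hc2⟩)
    rw [hal1, cond_true] at hs
    unfold step2 at hs
    obtain ⟨img1, himg1⟩ : ∃ img1, img1 = Nat.lor img (Nat.shiftLeft (x u).val (Nat.mul 4 m)) := ⟨_, rfl⟩
    rw [← himg1] at hs
    have h16 : (x u).val < 16 := by have := (x u).2; omega
    have himg1lt : img1 < 2 ^ (4 * (m + 1)) := by
      rw [himg1]; exact lor_shift_lt img _ m h16 hI.lt
    have himg1l : ∀ z : Fin 14, z.val < m + 1 → look img1 z = x z := by
      intro z hz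
      rcases Nat.lt_succ_iff_lt_or_eq.1 hz with h1 | h1
      · rw [himg1, look_lor_shift_ne _ _ _ _ h1, hI.img z h1]
      · have : z = u := Fin.ext (by rw [h1, hu])
        rw [himg1, h1, look_lor_shift_self _ _ _ h16 hI.lt, this]
    rw [← hxu'] at hs
    obtain ⟨d2, hd2⟩ : ∃ d2, d2 = Nat.lor d1 (acc (Nat.shiftRight T (Nat.mul 448 (Nat.succ m)))
      (Nat.shiftRight T (Nat.mul 448 (x u').val)) img1 (Nat.succ m)) := ⟨_, rfl⟩
    rw [← hd2] at hs
    have hdead2 : ∀ p, PB T x p → d2.testBit p = false := by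
      intro p hp
      rw [hd2]
      show (d1 ||| _).testBit p = false
      rw [Nat.testBit_or, hdead1 p hp]
      have := acc_testBit hp (img := img1) u' (m + 1) (by omega) himg1l
      rw [hu'] at this
      rw [show Nat.succ m = m + 1 from rfl, this]
      rfl
    have hal2 : alive d2 = true := alive_of (fun i hi => by
      obtain ⟨c, hc1, hc2⟩ := hc i hi
      exact ⟨c, hc1, hdead2 _ hc2⟩)
    rw [hal2, cond_true] at hs
    have h16' : (x u').val < 16 := by have := (x u').2; omega
    refine ih _ _ _ (by omega) ⟨?_, ?_, ?_, ?_⟩ hs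
    · exact lor_shift_lt img1 _ (m + 1) h16' himg1lt
    · intro z hz
      rcases Nat.lt_succ_iff_lt_or_eq.1 hz with h1 | h1
      · rw [show Nat.succ m = m + 1 from rfl, look_lor_shift_ne _ _ _ _ h1, himg1l z h1]
      · have : z = u' := Fin.ext (by rw [h1, hu'])
        rw [h1, show Nat.succ m = m + 1 from rfl, look_lor_shift_self _ _ _ h16' himg1lt, this]
    · intro v hv
      have hv' : ((used ||| (1 <<< (x u).val)) ||| (1 <<< (x u').val)).testBit v = true := hv
      rw [Nat.testBit_or, Nat.testBit_or, Bool.or_eq_true, Bool.or_eq_true] at hv'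
      rcases hv' with (h1 | h1) | h1
      · obtain ⟨z, hz, hz'⟩ := hI.used v h1
        exact ⟨z, by omega, hz'⟩
      · refine ⟨u, by omega, ?_⟩
        rw [Nat.one_shiftLeft, Nat.testBit_two_pow] at h1
        simpa using h1
      · refine ⟨u', by omega, ?_⟩
        rw [Nat.one_shiftLeft, Nat.testBit_two_pow] at h1
        simpa using h1
    · exact hdead2

end Pool.Agent.V8H69.TD
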